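import Pool.Agent.H160R2.SA.SumU

/-! Task SA-F: the determinants up to constants. -/

set_option autoImplicit false

namespace Pool.Agent.H160R2.SA
open Finset MeasureTheory
open Pool.Agent.H160R2.OA Pool.Agent.H160R2.HL Pool.Agent.H160R2.NE

/-- `log ((2 cosh x + b) / (2 cosh x + a))` -/
noncomputable def WW (a b x : ℝ) : ℝ := Real.log (2 * Real.cosh x + b) - Real.log (2 * Real.cosh x + a)

/-- minus the derivative of `WW` -/
noncomputable def ww (a b x : ℝ) : ℝ :=
  2 * Real.sinh x * (b - a) / ((2 * Real.cosh x + a) * (2 * Real.cosh x + b))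

theorem X_pos {a : ℝ} (ha : -1 ≤ a) (x : ℝ) : 0 < 2 * Real.cosh x + a := by
  have := Real.one_le_cosh x
  linarith

theorem X_exp {a : ℝ} (ha : -1 ≤ a) {x : ℝ} (hx : 0 ≤ x) :
    Real.exp x / 2 ≤ 2 * Real.cosh x + a := by
  have h1 : 2 * Real.cosh x = Real.exp x + Real.exp (-x) := by rw [Real.cosh_eq]; ring
  have h2 : Real.exp x * Real.exp (-x) = 1 := by rw [← Real.exp_add]; simp
  have h3 := Real.exp_pos x
  have h4 := Real.exp_pos (-x)
  rw [h1]
  nlinarith [sq_nonneg (Real.exp x / 2 - Real.exp (-x)), sq_nonneg (Real.exp x - 2 * Real.exp (-x)),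
    Real.one_le_exp hx]

theorem X_sinh {a : ℝ} (ha : -1 ≤ a) {x : ℝ} :
    2 * Real.sinh x ≤ 2 * (2 * Real.cosh x + a) := by
  have h1 : 2 * Real.cosh x = Real.exp x + Real.exp (-x) := by rw [Real.cosh_eq]; ring
  have h2 : 2 * Real.sinh x = Real.exp x - Real.exp (-x) := by rw [Real.sinh_eq]; ring
  have h3 := Real.one_le_cosh x
  have h4 := Real.exp_pos (-x)
  nlinarith

theorem X_cont (a b : ℝ) (ha : -1 ≤ a) (hb : -1 ≤ b) : Continuous (ww a b) := by
  unfold ww
  refine Continuous.div ?_ ?_ ?_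
  · exact ((continuous_const.mul Real.continuous_sinh).mul continuous_const)
  · exact ((continuous_const.mul Real.continuous_cosh).add continuous_const).mul
      ((continuous_const.mul Real.continuous_cosh).add continuous_const)
  · intro x
    exact (mul_pos (X_pos ha x) (X_pos hb x)).ne'

theorem X_nonneg {a b : ℝ} (ha : -1 ≤ a) (hab : a ≤ b) {x : ℝ} (hx : 0 ≤ x) : 0 ≤ ww a b x := by
  have h1 := Real.sinh_nonneg_iff.2 hx
  have h2 := X_pos ha x
  have h3 := X_pos (ha.trans hab) x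
  unfold ww
  have : 0 ≤ b - a := by linarith
  positivity

theorem X_le {a b : ℝ} (ha : -1 ≤ a) (hab : a ≤ b) {x : ℝ} (hx : 0 ≤ x) :
    ww a b x ≤ 4 * (b - a) * Real.exp (-x) := by
  have h1 := Real.sinh_nonneg_iff.2 hx
  have h2 := X_pos ha x
  have h3 := X_pos (ha.trans hab) x
  have h4 := X_exp (ha.trans hab) hx
  have h5 := X_sinh ha (x := x)
  have h6 : 0 ≤ b - a := by linarith
  have h7 : Real.exp x * Real.exp (-x) = 1 := by rw [← Real.exp_add]; simp
  unfold ww
  rw [div_le_iff₀ (mul_pos h2 h3)]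
  have h8 : 2 * Real.sinh x * (b - a) ≤ 2 * (2 * Real.cosh x + a) * (b - a) :=
    mul_le_mul_of_nonneg_right h5 h6
  have h9 : 1 ≤ 2 * Real.exp (-x) * (2 * Real.cosh x + b) := by
    have := mul_le_mul_of_nonneg_left h4 (by positivity : 0 ≤ 2 * Real.exp (-x))
    nlinarith
  calc 2 * Real.sinh x * (b - a) ≤ 2 * (2 * Real.cosh x + a) * (b - a) * 1 := by linarith
    _ ≤ 2 * (2 * Real.cosh x + a) * (b - a) * (2 * Real.exp (-x) * (2 * Real.cosh x + b)) := by
        apply mul_le_mul_of_nonneg_left h9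
        positivity
    _ = _ := by ring

theorem X_deriv {a b : ℝ} (ha : -1 ≤ a) (hb : -1 ≤ b) (x : ℝ) :
    HasDerivAt (WW a b) (-ww a b x) x := by
  have h2 := X_pos ha x
  have h3 := X_pos hb x
  have d1 : HasDerivAt (fun x => Real.log (2 * Real.cosh x + b))
      (2 * Real.sinh x / (2 * Real.cosh x + b)) x :=
    (((Real.hasDerivAt_cosh x).const_mul 2).add_const b).log h3.ne'
  have d2 : HasDerivAt (fun x => Real.log (2 * Real.cosh x + a))
      (2 * Real.sinh x / (2 * Real.cosh x + a)) x :=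
    (((Real.hasDerivAt_cosh x).const_mul 2).add_const a).log h2.ne'
  have d := d1.sub d2
  refine d.congr_deriv ?_
  unfold ww
  field_simp
  ring

theorem X_even (a b x : ℝ) : WW a b (-x) = WW a b x := by
  unfold WW; rw [Real.cosh_neg]

theorem X_lim {a b : ℝ} (ha : -1 ≤ a) (hab : a ≤ b) :
    Filter.Tendsto (WW a b) Filter.atTop (nhds 0) := by
  have h1 : Filter.Tendsto (fun x : ℝ => 2 * (b - a) * Real.exp (-x)) Filter.atTop (nhds 0) := by
    have := (Real.tendsto_exp_neg_atTop_nhds_zero).const_mul (2 * (b - a))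
    simpa using this
  refine squeeze_zero' ?_ ?_ h1
  · filter_upwards with x
    unfold WW
    rw [sub_nonneg]
    exact Real.log_le_log (X_pos ha x) (by linarith)
  · filter_upwards [Filter.eventually_ge_atTop (0 : ℝ)] with x hx
    have h2 := X_pos ha x
    have h3 := X_pos (ha.trans hab) x
    have h4 := X_exp ha hx
    have h7 : Real.exp x * Real.exp (-x) = 1 := by rw [← Real.exp_add]; simp
    unfold WW
    rw [← Real.log_div h3.ne' h2.ne']
    refine (Real.log_le_sub_one_of_pos (by positivity)).trans ?_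
    rw [div_sub_one h2.ne', div_le_iff₀ h2]
    have h9 : 1 ≤ 2 * Real.exp (-x) * (2 * Real.cosh x + a) := by
      have := mul_le_mul_of_nonneg_left h4 (by positivity : 0 ≤ 2 * Real.exp (-x))
      nlinarith
    have h6 : 0 ≤ b - a := by linarith
    nlinarith

theorem det_sharp (θ : ℝ) (h1 : Real.pi / 3 ≤ θ) (h2 : θ ≤ 2 * Real.pi / 3) :
    ∃ c C : ℝ, 0 < c ∧ 0 < C ∧ ∀ L : ℕ, 1 ≤ L →
      c * (L : ℝ) ^ (-(ex θ)) * ‖(wB L (Complex.exp ((Real.pi / 3 : ℝ) * Complex.I))).det‖ ≤
        ‖(wB L (Complex.exp (θ * Complex.I))).det‖ ∧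
      ‖(wB L (Complex.exp (θ * Complex.I))).det‖ ≤
        C * (L : ℝ) ^ (-(ex θ)) * ‖(wB L (Complex.exp ((Real.pi / 3 : ℝ) * Complex.I))).det‖ := by
  have hπ := Real.pi_pos
  have hθ0 : 0 ≤ θ := by linarith
  have hθ1 : θ < Real.pi := by linarith
  set t : ℝ := 2 * Real.cos θ with ht
  have ht1 : t ≤ 1 := by
    have : Real.cos θ ≤ Real.cos (Real.pi / 3) :=
      Real.cos_le_cos_of_nonneg_of_le_pi (by positivity) hθ1.le h1
    rw [Real.cos_pi_div_three] at this
    linarith
  have ht2 : -1 ≤ t := by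
    have : Real.cos (2 * Real.pi / 3) ≤ Real.cos θ :=
      Real.cos_le_cos_of_nonneg_of_le_pi hθ0 (by linarith) h2
    rw [cos_two_thirds] at this
    linarith
  -- identification
  have hGW : (fun x : ℝ => Real.log ((2 * Real.cosh x + 1) / (2 * Real.cosh x + 2 * Real.cos θ))) =
      WW t 1 := by
    funext x
    unfold WW
    rw [Real.log_div (X_pos (by norm_num) x).ne' (X_pos ht2 x).ne']
  have hcW : cal = WW (-1) 2 := by
    funext x
    rw [cal_eq]
    unfold WW
    rw [Real.log_div (X_pos (by norm_num) x).ne' (by have := X_pos (le_refl (-1 : ℝ)) x; linarith)]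
    congr 2
  obtain ⟨hint, hval⟩ := integral_log θ hθ0 hθ1
  rw [hGW] at hint hval
  have hex : 3 / (2 * Real.pi ^ 2) * (θ ^ 2 - Real.pi ^ 2 / 9) = 2 * ex θ := by
    unfold ex; field_simp; ring
  -- first bound
  obtain ⟨C1, hC1⟩ := sum_u (WW t 1) (ww t 1) (4 * (1 - t)) (X_cont t 1 ht2 (by norm_num))
    (fun x hx => X_nonneg ht2 ht1 hx) (fun x hx => X_le ht2 ht1 hx)
    (fun x => X_deriv ht2 (by norm_num) x) (X_even t 1) (X_lim ht2 ht1)
  rw [hval, hex] at hC1
  -- second bound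
  have hd2 : ∀ x, HasDerivAt (fun x => WW (-1) 2 x - WW t 1 x) (-(ww (-1) 2 x - ww t 1 x)) x := by
    intro x
    have := (X_deriv (a := -1) (b := 2) (by norm_num) (by norm_num) x).sub
      (X_deriv (a := t) (b := 1) ht2 (by norm_num) x)
    refine this.congr_deriv ?_
    ring
  have hn2 : ∀ x, 0 ≤ x → 0 ≤ ww (-1) 2 x - ww t 1 x := by
    intro x hx
    have hs := Real.sinh_nonneg_iff.2 hx
    have hc := Real.one_le_cosh x
    have p1 := X_pos (le_refl (-1 : ℝ)) x
    have p2 := X_pos (show (-1 : ℝ) ≤ 2 by norm_num) x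
    have p3 := X_pos ht2 x
    have p4 := X_pos (show (-1 : ℝ) ≤ 1 by norm_num) x
    rw [sub_nonneg]
    unfold ww
    rw [div_le_div_iff₀ (mul_pos p3 p4) (mul_pos p1 p2)]
    have h5 : (1 - t) * ((2 * Real.cosh x + -1) * (2 * Real.cosh x + 2)) ≤
        (2 - -1) * ((2 * Real.cosh x + t) * (2 * Real.cosh x + 1)) := by
      have q1 : (2 * Real.cosh x + -1) ≤ (2 * Real.cosh x + t) := by linarith
      have q2 : (1 - t) * (2 * Real.cosh x + 2) ≤ 3 * (2 * Real.cosh x + 1) := by nlinarith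
      calc (1 - t) * ((2 * Real.cosh x + -1) * (2 * Real.cosh x + 2))
          = (2 * Real.cosh x + -1) * ((1 - t) * (2 * Real.cosh x + 2)) := by ring
        _ ≤ (2 * Real.cosh x + t) * (3 * (2 * Real.cosh x + 1)) := by
            apply mul_le_mul q1 q2 _ p3.le
            have : 0 ≤ 1 - t := by linarith
            positivity
        _ = _ := by ring
    have h6 := mul_le_mul_of_nonneg_left h5 (by positivity : 0 ≤ 2 * Real.sinh x)
    calc 2 * Real.sinh x * (1 - t) * ((2 * Real.cosh x + -1) * (2 * Real.cosh x + 2))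
        = 2 * Real.sinh x * ((1 - t) * ((2 * Real.cosh x + -1) * (2 * Real.cosh x + 2))) := by ring
      _ ≤ 2 * Real.sinh x * ((2 - -1) * ((2 * Real.cosh x + t) * (2 * Real.cosh x + 1))) := h6
      _ = _ := by ring
  obtain ⟨C2, hC2⟩ := sum_u (fun x => WW (-1) 2 x - WW t 1 x) (fun x => ww (-1) 2 x - ww t 1 x) 12
    ((X_cont (-1) 2 (by norm_num) (by norm_num)).sub (X_cont t 1 ht2 (by norm_num))) hn2
    (fun x hx => by
      have q1 := X_le (le_refl (-1 : ℝ)) (by norm_num : (-1 : ℝ) ≤ 2) hx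
      have q2 := X_nonneg ht2 ht1 hx
      have q3 : 4 * (2 - -1 : ℝ) = 12 := by norm_num
      rw [q3] at q1
      linarith) hd2
    (fun x => by rw [X_even, X_even]) (by
      have := (X_lim (le_refl (-1 : ℝ)) (by norm_num : (-1 : ℝ) ≤ 2)).sub (X_lim ht2 ht1)
      simpa using this)
  have hi2 : ∫ x, (WW (-1) 2 x - WW t 1 x) = 4 * Real.pi ^ 2 / 9 - (θ ^ 2 - Real.pi ^ 2 / 9) := by
    rw [← hcW, integral_sub cal_int hint, cal_integral, hval]
  rw [hi2] at hC2
  have hex2 : 3 / (2 * Real.pi ^ 2) * (4 * Real.pi ^ 2 / 9 - (θ ^ 2 - Real.pi ^ 2 / 9)) =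
      2 / 3 - 2 * ex θ := by
    rw [mul_sub, hex]
    congr 1
    field_simp
    norm_num
  rw [hex2] at hC2
  refine ⟨Real.exp (-(C2 / 2 + Real.log 2)), Real.exp (C1 / 2), Real.exp_pos _, Real.exp_pos _,
    fun L hL => ?_⟩
  have hLpos : (0 : ℝ) < L := by exact_mod_cast hL
  obtain ⟨μ, hμ⟩ := det_wB L (by omega) (Z_herm L)
  have k1 := hC1 L hL (Z_herm L) μ hμ
  have k2 := hC2 L hL (Z_herm L) μ hμ
  have k3 := cal_sum hL hμ
  have k4 := Z_sum_log hμ hθ0 hθ1
  have e1 : ∑ i, WW t 1 (Real.log (μ i)) =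
      2 * Real.log ‖(wB L (Complex.exp ((Real.pi / 3 : ℝ) * Complex.I))).det‖ -
      2 * Real.log ‖(wB L (Complex.exp (θ * Complex.I))).det‖ := by
    rw [← k4]
    refine Finset.sum_congr rfl fun i _ => ?_
    rw [← hGW]
  have e2 : ∑ i, (WW (-1) 2 (Real.log (μ i)) - WW t 1 (Real.log (μ i))) =
      ∑ i, cal (Real.log (μ i)) - ∑ i, WW t 1 (Real.log (μ i)) := by
    rw [Finset.sum_sub_distrib, hcW]
  rw [e1] at k1 e2
  rw [e2] at k2
  have hp1 := (Z_log_det hμ hθ0 hθ1).1
  have hp2 := (Z_log_det hμ (θ := Real.pi / 3) (by positivity) (by linarith)).1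
  constructor
  · rw [← Real.log_le_log_iff (by positivity) hp1, Real.log_mul (by positivity) hp2.ne',
      Real.log_mul (by positivity) (by positivity), Real.log_exp, Real.log_rpow hLpos]
    linarith
  · rw [← Real.log_le_log_iff hp1 (by positivity), Real.log_mul (by positivity) hp2.ne',
      Real.log_mul (by positivity) (by positivity), Real.log_exp, Real.log_rpow hLpos]
    linarith

end Pool.Agent.H160R2.SA
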