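import Pool.Agent.H160R2.SA.Final
import Pool.Agent.H160R2.CV.Sharp
import Pool.Agent.H906R2.Arm.Final

/-! The sharp one-arm estimate for critical bond percolation on the square lattice. -/

set_option autoImplicit false

namespace Pool.Agent.H160R2.SA
open Finset
open Pool.Agent.H160R2.OA Pool.Agent.H160R2.HL Pool.Agent.H160R2.CV
open Pool.Agent.H863R2.Cyl (oneArm pas)

/-- the exact value on the even cylinder, up to constants -/
theorem oneArm_sharp : ∃ c C : ℝ, 0 < c ∧ 0 < C ∧ ∀ n : ℕ, 1 ≤ n →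
    c * (n : ℝ) ^ (-(5 / 48 : ℝ)) ≤ oneArm n ∧ oneArm n ≤ C * (n : ℝ) ^ (-(5 / 48 : ℝ)) := by
  have hπ := Real.pi_pos
  obtain ⟨c, C, hc, hC, h⟩ := det_sharp (Real.pi / 2) (by linarith) (by linarith)
  refine ⟨c * (2 : ℝ) ^ (-(5 / 48 : ℝ)), C * (2 : ℝ) ^ (-(5 / 48 : ℝ)), by positivity,
    by positivity, fun n hn => ?_⟩
  have e1 : Complex.exp (((Real.pi / 2 : ℝ) : ℂ) * Complex.I) = Complex.I := by
    rw [show (((Real.pi / 2 : ℝ) : ℂ) * Complex.I) = (Real.pi : ℂ) / 2 * Complex.I by push_cast; ring]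
    exact Complex.exp_pi_div_two_mul_I
  have e : (((Real.pi / 3 : ℝ) : ℂ) * Complex.I) = (Real.pi : ℂ) / 3 * Complex.I := by
    push_cast; ring
  obtain ⟨a, b⟩ := h (2 * n) (by omega)
  obtain ⟨μ, hμ⟩ := det_wB (2 * n) (by omega) (Z_herm (2 * n))
  have hp := (Z_log_det hμ (θ := Real.pi / 3) (by positivity) (by linarith)).1
  have hn0 : (0 : ℝ) ≤ n := Nat.cast_nonneg n
  rw [e1, ex_half] at a b
  rw [e] at a b hp
  have e2 : (((2 * n : ℕ) : ℝ)) ^ (-(5 / 48 : ℝ)) =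
      (2 : ℝ) ^ (-(5 / 48 : ℝ)) * (n : ℝ) ^ (-(5 / 48 : ℝ)) := by
    push_cast
    rw [Real.mul_rpow (by norm_num) hn0]
  rw [e2] at a b
  have hone : oneArm n = ‖(wB (2 * n) Complex.I).det‖ /
      ‖(wB (2 * n) (Complex.exp (Real.pi / 3 * Complex.I))).det‖ := by
    unfold Pool.Agent.H863R2.Cyl.oneArm
    rw [pas_eq, pas_eq]
  rw [hone]
  constructor
  · rw [le_div_iff₀ hp]
    refine le_trans (le_of_eq ?_) a
    ring
  · rw [div_le_iff₀ hp]
    refine le_trans b (le_of_eq ?_)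
    ring

/-- **sharp one-arm estimate** -/
theorem arSharp : ArSharp := by
  obtain ⟨c, C, hc, hC, h⟩ := oneArm_sharp
  refine ⟨c * (3 : ℝ) ^ (-(5 / 48 : ℝ)), 2 ^ 378 * C + 8, by positivity, by positivity,
    fun n hn => ?_⟩
  have hn0 : (0 : ℝ) < n := by exact_mod_cast hn
  have hn1 : (1 : ℝ) ≤ n := by exact_mod_cast hn
  constructor
  · have h1 : oneArm (2 * n + 1) ≤ ar n := H906.Cyl.oneArm_le_arm (n := 2 * n + 1) (k := n) (by omega)
    have h2 := (h (2 * n + 1) (by omega)).1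
    refine le_trans ?_ (h2.trans h1)
    rw [mul_assoc]
    apply mul_le_mul_of_nonneg_left _ hc.le
    rw [← Real.mul_rpow (by norm_num) hn0.le]
    apply Real.rpow_le_rpow_of_nonpos (by positivity)
    · push_cast; linarith
    · norm_num
  · rcases Nat.lt_or_ge n 4 with h4 | h4
    · -- small `n`
      have h5 : ar n ≤ 1 := ar_le_one n
      have h6 : (1 : ℝ) / 4 ≤ (n : ℝ) ^ (-(5 / 48 : ℝ)) := by
        have h7 : (n : ℝ) ^ (-1 : ℝ) ≤ (n : ℝ) ^ (-(5 / 48 : ℝ)) :=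
          Real.rpow_le_rpow_of_exponent_le hn1 (by norm_num)
        rw [Real.rpow_neg_one] at h7
        refine le_trans ?_ h7
        rw [one_div]
        apply inv_anti₀ hn0
        have : (n : ℝ) < 4 := by exact_mod_cast h4
        linarith
      have h8 : 0 ≤ 2 ^ 378 * C * (n : ℝ) ^ (-(5 / 48 : ℝ)) := by positivity
      nlinarith
    · have ha : 0 < n / 4 := by omega
      have h1 := H906.Cyl.arm_le_oneArm (n := 10 * (n / 4)) (a := n / 4) ha (by omega) (by omega)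
      have h2 := (h (10 * (n / 4)) (by omega)).2
      have h3 : ar n ≤ ar (4 * (n / 4)) := ar_anti (by omega)
      have h5 : (((10 * (n / 4) : ℕ)) : ℝ) ^ (-(5 / 48 : ℝ)) ≤ (n : ℝ) ^ (-(5 / 48 : ℝ)) := by
        apply Real.rpow_le_rpow_of_nonpos hn0
        · exact_mod_cast (show n ≤ 10 * (n / 4) by omega)
        · norm_num
      have h6 : (1/2 : ℝ) ^ 378 * ar n ≤ C * (n : ℝ) ^ (-(5 / 48 : ℝ)) :=
        le_trans (le_trans (mul_le_mul_of_nonneg_left h3 (by positivity)) h1)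
          (le_trans h2 (mul_le_mul_of_nonneg_left h5 hC.le))
      have e2 : (2 : ℝ) ^ 378 * ((1/2 : ℝ) ^ 378 * ar n) = ar n := by
        rw [← mul_assoc, ← mul_pow]; norm_num
      have h7 : 0 ≤ (n : ℝ) ^ (-(5 / 48 : ℝ)) := by positivity
      calc ar n = (2 : ℝ) ^ 378 * ((1/2 : ℝ) ^ 378 * ar n) := e2.symm
        _ ≤ 2 ^ 378 * (C * (n : ℝ) ^ (-(5 / 48 : ℝ))) := mul_le_mul_of_nonneg_left h6 (by positivity)
        _ ≤ _ := by linarith

end Pool.Agent.H160R2.SA
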