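import Pool.Agent.H160R2.OA.Wkb

/-!
# WKB lower bound for the number of zeros of the truncated solution, uniform version
-/

set_option autoImplicit false

namespace Pool.Agent.H160R2.SA

open Finset ComplexConjugate
open Pool.Agent.H160R2.OA

noncomputable section

theorem WU_eps_le {L m M : ℕ} {D η : ℝ} (h : W_hyp L m M D η) {j : ℕ} (hj : m ≤ j) (hjM : j < M)
    {y : ℝ} (hy : |y| ≤ D - 1) : ‖W_eps L y j‖ ≤ 4 * D * W_q L (j + 1) + 2 * D ^ 2 / j := by
  have hq' := h.q (k := j + 1) hjM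
  have hq := h.q hjM.le
  have hj1 := h.mk1 hj
  have hj4 := h.mk4 hj
  have hD := h.hD
  have hjR : (1 : ℝ) ≤ j := by exact_mod_cast hj1
  rw [W_eps_eq hj1 h.hL hq' hq y]
  have hq0 := W_q_nonneg L j
  have hq0' := W_q_nonneg L (j + 1)
  have hmono : W_q L j ≤ W_q L (j + 1) := W_q_mono (Nat.le_succ j)
  -- first term
  have t1 : ‖((y * (W_S L (j + 1) + W_S L j - √3) : ℝ) : ℂ)‖ ≤ (D - 1) * (2 * W_q L (j + 1)) := by
    rw [Complex.norm_real, Real.norm_eq_abs, abs_mul]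
    refine mul_le_mul hy ?_ (abs_nonneg _) (by linarith)
    have e1 := W_sub_S hq
    have e2 := W_sub_S hq'
    have e3 := W_S_le L j
    have e4 := W_S_le L (j + 1)
    rw [abs_le]
    constructor <;> linarith
  -- second term
  have t2 : ‖(((j + 1 / 2) * (W_S L (j + 1) - W_S L j) - y * (W_q L j - W_q L (j + 1)) : ℝ) : ℂ) *
        Complex.I‖ ≤ 2 * W_q L (j + 1) + (D - 1) * W_q L (j + 1) := by
    rw [norm_mul, Complex.norm_I, mul_one, Complex.norm_real, Real.norm_eq_abs]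
    refine (abs_sub _ _).trans (add_le_add ?_ ?_)
    · rw [abs_mul, abs_of_pos (by positivity : (0 : ℝ) < j + 1 / 2)]
      have e1 := W_S_sq hq
      have e2 := W_S_sq hq'
      have e3 := W_S_ge hq
      have e4 := W_S_ge hq'
      have e5 : |W_S L (j + 1) - W_S L j| ≤ W_q L (j + 1) - W_q L j := by
        rw [abs_le]
        constructor <;> nlinarith
      refine (mul_le_mul_of_nonneg_left e5 (by positivity)).trans ?_
      rw [W_q_step]
      unfold W_q
      have hL : (0 : ℝ) < (L : ℝ) ^ 2 := by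
        have : (1 : ℝ) ≤ L := by exact_mod_cast h.hL
        positivity
      rw [mul_div_assoc', mul_div_assoc']
      refine div_le_div_of_nonneg_right ?_ hL.le
      push_cast
      nlinarith
    · rw [abs_mul]
      refine mul_le_mul hy ?_ (abs_nonneg _) (by linarith)
      rw [abs_le]
      constructor <;> linarith
  -- third term
  have t3 : ‖conj (W_U L j) * (W_z y ^ 2 / (j - W_z y))‖ ≤ 2 * D ^ 2 / j := by
    have hz := W_z_norm hy
    have h3 : (j : ℝ) / 2 ≤ ‖(j : ℂ) - W_z y‖ := by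
      have e1 : (j : ℝ) - D ≤ ‖(j : ℂ) - W_z y‖ := by
        have := norm_sub_norm_le (j : ℂ) (W_z y)
        rw [Complex.norm_natCast] at this
        linarith
      nlinarith
    rw [norm_mul, norm_div, norm_pow, RCLike.norm_conj, W_U_norm hq]
    calc (1 - W_q L j) * (‖W_z y‖ ^ 2 / ‖(j : ℂ) - W_z y‖) ≤ 1 * (D ^ 2 / (j / 2)) := by
          refine mul_le_mul (by linarith) ?_ (by positivity) zero_le_one
          refine div_le_div₀ (by positivity) (pow_le_pow_left₀ (norm_nonneg _) hz 2)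
            (by positivity) h3
      _ = 2 * D ^ 2 / j := by
          field_simp
  refine (norm_add_le _ _).trans ?_
  refine (add_le_add (norm_add_le _ _) le_rfl).trans ?_
  nlinarith

theorem WU_r_bound {L m M : ℕ} {D η : ℝ} (h : W_hyp L m M D η) {y : ℝ} (hy : |y| ≤ D - 1) {i : ℕ}
    (hi : m + i < M) : ‖W_r L m y i - 1‖ ≤
      (4 * D * W_q L (m + i + 1) + 2 * D ^ 2 / ((m + i : ℕ) : ℝ)) *
        (8 / 3 / ((m + i : ℕ) : ℝ)) := by
  have hw := W_w_ne h hy i (by omega)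
  have hr := W_rho_ne (h.mk1 (k := m + i) (by omega)) (h.q hi.le) y
  have hr' := W_rho_ne (h.mk1 (k := m + i + 1) (by omega)) (h.q (k := m + i + 1) hi) y
  have e1 : W_r L m y i - 1 = - (conj (W_eps L y (m + i)) *
      (Complex.normSq (W_rho L y (m + i)) : ℂ) * ((W_v L m y (i + 1) : ℂ) / W_w L m y i)) := by
    unfold W_r
    rw [mul_comm (W_w L m y (i + 1)), W_w_succ h y hi]
    field_simp
    ring
  have hj : (1 : ℝ) ≤ ((m + i : ℕ) : ℝ) := by exact_mod_cast h.mk1 (k := m + i) (by omega)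
  have hb := W_b_ge h (k := m + i) hi.le
  have him := W_rho_im h (k := m + i) (by omega) hi.le hy
  have hnw : 0 < ‖W_w L m y i‖ := norm_pos_iff.2 hw
  -- the quotient
  have e2 : ‖(W_v L m y (i + 1) : ℂ) / W_w L m y i‖ ≤ 8 / 3 / ((m + i : ℕ) : ℝ) := by
    rw [norm_div, Complex.norm_real, Real.norm_eq_abs, div_le_iff₀ hnw]
    have e3 := (Complex.abs_im_le_norm (W_w L m y i))
    have hbp : 0 < b L (m + i) * (W_rho L y (m + i)).im :=
      mul_pos (by linarith) (by linarith)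
    rw [W_w_im, abs_mul, abs_of_pos hbp] at e3
    have e4 : 3 / 8 * ((m + i : ℕ) : ℝ) * |W_v L m y (i + 1)| ≤ ‖W_w L m y i‖ := by
      refine le_trans (mul_le_mul_of_nonneg_right ?_ (abs_nonneg _)) e3
      nlinarith
    rw [div_mul_eq_mul_div, le_div_iff₀ (by linarith)]
    nlinarith
  have e3 := WU_eps_le h (j := m + i) (by omega) hi hy
  have e4 : ‖(Complex.normSq (W_rho L y (m + i)) : ℂ)‖ ≤ 1 := by
    rw [Complex.norm_real, Real.norm_eq_abs, abs_of_nonneg (Complex.normSq_nonneg _),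
      Complex.normSq_eq_norm_sq]
    exact pow_le_one₀ (norm_nonneg _) (W_rho_norm_le h (by omega) hi.le hy)
  rw [e1, norm_neg, norm_mul, norm_mul, RCLike.norm_conj]
  have hE : 0 ≤ 4 * D * W_q L (m + i + 1) + 2 * D ^ 2 / ((m + i : ℕ) : ℝ) :=
    (norm_nonneg _).trans e3
  calc ‖W_eps L y (m + i)‖ * ‖(Complex.normSq (W_rho L y (m + i)) : ℂ)‖ *
      ‖(W_v L m y (i + 1) : ℂ) / W_w L m y i‖
      ≤ (4 * D * W_q L (m + i + 1) + 2 * D ^ 2 / ((m + i : ℕ) : ℝ)) * 1 *
        (8 / 3 / ((m + i : ℕ) : ℝ)) := by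
        refine mul_le_mul (mul_le_mul e3 e4 (norm_nonneg _) hE) e2 (norm_nonneg _) ?_
        rw [mul_one]; exact hE
    _ = _ := by rw [mul_one]

theorem WU_arg_r {L m M : ℕ} {D η : ℝ} (h : W_hyp L m M D η) {y : ℝ} (hy : |y| ≤ D - 1) {i : ℕ}
    (hi : m + i < M) : |(W_r L m y i).arg| ≤
      2 * ((4 * D * W_q L (m + i + 1) + 2 * D ^ 2 / ((m + i : ℕ) : ℝ)) *
        (8 / 3 / ((m + i : ℕ) : ℝ))) := by
  have hw := W_w_ne h hy i (by omega)
  have h1 := WU_r_bound h hy hi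
  have h2 := W_r_re (W_r_half h hy hi hw)
  rw [W_arg (by linarith)]
  have h0 : ∀ t : ℝ, 0 ≤ t → Real.arctan t ≤ t := by
    intro t ht
    have h4 := Real.le_tan (Real.arctan_nonneg.2 ht) (Real.arctan_lt_pi_div_two t)
    rwa [Real.tan_arctan] at h4
  have h3 : ∀ t : ℝ, |Real.arctan t| ≤ |t| := by
    intro t
    rcases le_total 0 t with ht | ht
    · rw [abs_of_nonneg ht, abs_of_nonneg (Real.arctan_nonneg.2 ht)]
      exact h0 t ht
    · have h4 := h0 (-t) (by linarith)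
      rw [Real.arctan_neg] at h4
      rw [abs_of_nonpos ht, abs_of_nonpos]
      · exact h4
      · have := Real.arctan_nonneg.2 (show 0 ≤ -t by linarith)
        rw [Real.arctan_neg] at this
        linarith
  refine (h3 _).trans ?_
  set E : ℝ := (4 * D * W_q L (m + i + 1) + 2 * D ^ 2 / ((m + i : ℕ) : ℝ)) *
        (8 / 3 / ((m + i : ℕ) : ℝ)) with hE
  have h4 : |(W_r L m y i).im| ≤ E := by
    have h5 := (Complex.abs_im_le_norm (W_r L m y i - 1)).trans h1
    rwa [Complex.sub_im, Complex.one_im, sub_zero] at h5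
  rw [abs_div, abs_of_pos (by linarith : 0 < (W_r L m y i).re), div_le_iff₀ (by linarith)]
  have h5 : 0 ≤ E := (abs_nonneg _).trans h4
  nlinarith

theorem WU_sum_sq (m : ℕ) (hm : 1 ≤ m) (n : ℕ) :
    ∑ k ∈ range n, 1 / ((m + k : ℕ) : ℝ) ^ 2 ≤ 2 / (m : ℝ) - 2 / ((m + n : ℕ) : ℝ) := by
  induction n with
  | zero => simp
  | succ n ih =>
    rw [sum_range_succ]
    have hn : (1 : ℝ) ≤ ((m + n : ℕ) : ℝ) := by exact_mod_cast (by omega : 1 ≤ m + n)
    have e : ((m + (n + 1) : ℕ) : ℝ) = ((m + n : ℕ) : ℝ) + 1 := by push_cast; ring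
    rw [e]
    set x : ℝ := ((m + n : ℕ) : ℝ) with hx
    have h1 : 1 / x ^ 2 ≤ 2 / x - 2 / (x + 1) := by
      rw [div_sub_div _ _ (by positivity) (by positivity), div_le_div_iff₀ (by positivity)
        (by positivity)]
      nlinarith [mul_pos (by linarith : 0 < x) (by linarith : 0 < x)]
    linarith

/-- main term for one index -/
theorem WU_main {L m M : ℕ} {D η : ℝ} (h : W_hyp L m M D η) {Y : ℝ} (hY : 0 ≤ Y)
    (hYD : Y ≤ D - 1) {k : ℕ} (hk : m ≤ k) (hkM : k ≤ M) (hm24 : 24 * D ^ 2 ≤ (m : ℝ)) :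
    2 * Y * (1 / (k : ℝ)) - D * (1 / (k : ℝ) ^ 2) ≤
      (W_rho L (-Y) k).arg - (W_rho L Y k).arg := by
  have hD := h.hD
  rw [W_arg_rho h hk hkM, W_arg_rho h hk hkM]
  have hmk : (m : ℝ) ≤ k := by exact_mod_cast hk
  have hkR : 24 * D ^ 2 ≤ (k : ℝ) := hm24.trans hmk
  set j : ℝ := (k : ℝ) with hj
  have hj24 : 24 ≤ j := by nlinarith
  have hκ : 0 < j - 1 / 2 := by linarith
  have h2 := W_arctan_le (A := D / (j - 1 / 2)) (x := -Y / (j - 1 / 2))
      (y := Y / (j - 1 / 2)) (by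
        rw [← neg_div]
        exact div_le_div_of_nonneg_right (by linarith) hκ.le)
      (div_le_div_of_nonneg_right (by linarith) hκ.le)
      (div_le_div_of_nonneg_right (by linarith) hκ.le)
  have h3 : 2 * Y * (1 / j) - D * (1 / j ^ 2) ≤
      1 / (1 + (D / (j - 1 / 2)) ^ 2) * (Y / (j - 1 / 2) - -Y / (j - 1 / 2)) := by
    have hA : 1 - (D / (j - 1 / 2)) ^ 2 ≤ 1 / (1 + (D / (j - 1 / 2)) ^ 2) := by
      rw [le_div_iff₀ (by positivity)]
      nlinarith [sq_nonneg ((D / (j - 1 / 2)) ^ 2)]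
    have h4 : Y / (j - 1 / 2) - -Y / (j - 1 / 2) = 2 * Y / (j - 1 / 2) := by
      field_simp; ring
    rw [h4]
    have h5 : 0 ≤ 2 * Y / (j - 1 / 2) := by positivity
    refine le_trans ?_ (mul_le_mul_of_nonneg_right hA h5)
    have h6 : 2 * Y * (1 / j) ≤ 2 * Y / (j - 1 / 2) := by
      rw [mul_one_div]
      exact div_le_div_of_nonneg_left (by linarith) hκ (by linarith)
    have h7 : (D / (j - 1 / 2)) ^ 2 * (2 * Y / (j - 1 / 2)) ≤ D * (1 / j ^ 2) := by
      have e1 : (D / (j - 1 / 2)) ^ 2 * (2 * Y / (j - 1 / 2)) =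
          D ^ 2 * (2 * Y) / (j - 1 / 2) ^ 3 := by
        field_simp
      rw [e1, mul_one_div, div_le_div_iff₀ (by positivity) (by positivity)]
      have e2 : j ^ 2 * (j / 2) ≤ (j - 1 / 2) ^ 3 * 4 := by
        nlinarith [mul_nonneg (by linarith : 0 ≤ j - 24) (by linarith : 0 ≤ j - 24),
          mul_nonneg (mul_nonneg (by linarith : 0 ≤ j - 24) (by linarith : 0 ≤ j - 24))
            (by linarith : 0 ≤ j)]
      have e3 : D ^ 2 * (2 * Y) * j ^ 2 ≤ D * (D * (2 * D)) * j ^ 2 := by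
        have : D ^ 2 * (2 * Y) ≤ D * (D * (2 * D)) := by nlinarith [sq_nonneg D]
        exact mul_le_mul_of_nonneg_right this (by positivity)
      have e4 : D * (D * (2 * D)) * j ^ 2 ≤ D * (j ^ 2 * (j / 2) / 4) := by
        have : D * (2 * D) * j ^ 2 ≤ j ^ 2 * (j / 2) / 4 := by
          have : D * (2 * D) ≤ j / 8 := by nlinarith
          nlinarith [sq_nonneg j]
        nlinarith
      nlinarith
    nlinarith
  linarith

theorem wkb_u : ∃ C : ℝ, 0 < C ∧ ∃ L0 : ℕ, ∀ L : ℕ, L0 ≤ L → ∀ Y : ℝ, 0 ≤ Y →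
    (1 + Y) ^ 4 ≤ (L : ℝ) → ∃ m n : ℕ, 1 ≤ m ∧ 1 ≤ n ∧ m + n < L ∧ ∃ S : Finset ℝ,
      (∀ y ∈ S, -Y ≤ y ∧ y ≤ Y ∧ tr L m (√3 * y) (n + 1) = 0) ∧
      2 * Y / Real.pi * Real.log L - C * (1 + Y) ^ 2 ≤ (S.card : ℝ) := by
  refine ⟨20, by norm_num, 189 ^ 4, ?_⟩
  intro L hL Y hY hYL
  set D : ℝ := 1 + Y with hD
  have hD1 : 1 ≤ D := by linarith
  have hL' : (189 : ℝ) ^ 4 ≤ L := by exact_mod_cast hL
  have hL0 : (0 : ℝ) < L := lt_of_lt_of_le (by norm_num) hL'
  have hLN : 1 ≤ L := by exact_mod_cast hL0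
  have hL3 : 189 * D ^ 3 ≤ L := by
    rcases le_total D 189 with h | h
    · have : D ^ 3 ≤ 189 ^ 3 := pow_le_pow_left₀ (by linarith) h 3
      nlinarith
    · have : 189 * D ^ 3 ≤ D ^ 4 := by
        have : 0 ≤ D ^ 3 := by positivity
        nlinarith
      linarith
  set m : ℕ := ⌈24 * D ^ 2⌉₊ with hm
  have hm24 : 24 * D ^ 2 ≤ (m : ℝ) := Nat.le_ceil _
  have hm25 : (m : ℝ) ≤ 25 * D ^ 2 := by
    have := Nat.ceil_lt_add_one (show 0 ≤ 24 * D ^ 2 by positivity)
    rw [← hm] at this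
    nlinarith
  have hm0 : (0 : ℝ) < m := by nlinarith
  have hmN : 1 ≤ m := by exact_mod_cast hm0
  set M : ℕ := ⌊(L : ℝ) / (7 * D)⌋₊ with hM
  have hM1 : (M : ℝ) ≤ (L : ℝ) / (7 * D) := Nat.floor_le (by positivity)
  have hM2 : (L : ℝ) / (7 * D) < M + 1 := Nat.lt_floor_add_one _
  have hM27 : 27 * D ^ 2 ≤ (L : ℝ) / (7 * D) := by
    rw [le_div_iff₀ (by positivity)]
    nlinarith
  have hmM : m + 1 ≤ M := by
    have : ((m + 1 : ℕ) : ℝ) < (M : ℝ) + 1 := by
      push_cast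
      nlinarith
    have h2 : m + 1 < M + 1 := by exact_mod_cast this
    omega
  have hML : (M : ℝ) * (7 * D) ≤ L := by rwa [le_div_iff₀ (by positivity)] at hM1
  have hq : W_q L M ≤ 1 / (49 * D ^ 2) := by
    unfold W_q
    rw [div_le_div_iff₀ (by positivity) (by positivity)]
    have : ((M : ℝ) * (7 * D)) ^ 2 ≤ (L : ℝ) ^ 2 := pow_le_pow_left₀ (by positivity) hML 2
    nlinarith
  have hDD : 1 ≤ D ^ 2 := one_le_pow₀ hD1
  have hyp : W_hyp L m M D (1 / 6) :=
    { hL := hLN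
      hD := hD1
      hm := by nlinarith
      hM := hq.trans (by
        rw [div_le_div_iff₀ (by positivity) (by norm_num)]
        nlinarith)
      hη := le_refl _
      hη0 := by norm_num
      h1 := by
        have h1 : 4 * D * W_q L M ≤ 4 * D * (1 / (49 * D ^ 2)) :=
          mul_le_mul_of_nonneg_left hq (by positivity)
        refine h1.trans ?_
        rw [mul_one_div, div_le_div_iff₀ (by positivity) (by norm_num)]
        nlinarith
      h2 := by
        rw [div_le_div_iff₀ hm0 (by norm_num)]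
        nlinarith }
  have hy1 : |(-Y)| ≤ D - 1 := by rw [abs_neg, abs_of_nonneg hY]; linarith
  have hy2 : |Y| ≤ D - 1 := by rw [abs_of_nonneg hY]; linarith
  set n : ℕ := M - m with hn
  have hmn : m + n = M := by omega
  obtain ⟨S, hS1, hS2⟩ := W_count hyp (by linarith : -Y ≤ Y) hy1 hy2 (n := n) hmn.le
  have hM7 : (M : ℝ) < L := by
    have : (0 : ℝ) < M := by exact_mod_cast (by omega : 0 < M)
    nlinarith
  refine ⟨m, n, hmN, by omega, by
    have h2 : M < L := by exact_mod_cast hM7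
    omega, S, hS1, ?_⟩
  refine le_trans ?_ hS2
  -- the phase difference
  have hmain : 2 * Y * ∑ k ∈ range (n + 1), 1 / ((m + k : ℕ) : ℝ) -
      D * ∑ k ∈ range (n + 1), 1 / ((m + k : ℕ) : ℝ) ^ 2 ≤
      ∑ k ∈ range (n + 1), (W_rho L (-Y) (m + k)).arg -
        ∑ k ∈ range (n + 1), (W_rho L Y (m + k)).arg := by
    rw [mul_sum, mul_sum, ← sum_sub_distrib, ← sum_sub_distrib]
    refine sum_le_sum fun k hk => ?_
    rw [mem_range] at hk
    exact WU_main hyp hY (by linarith) (by omega) (by omega) hm24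
  have herr : ∀ y : ℝ, |y| ≤ D - 1 → |∑ k ∈ range n, (W_r L m y k).arg| ≤ 3 := by
    intro y hy
    refine (abs_sum_le_sum_abs _ _).trans ?_
    have h1 : ∀ k ∈ range n, |(W_r L m y k).arg| ≤
        16 / 3 * (8 * D * M / (L : ℝ) ^ 2) + 16 / 3 * (2 * D ^ 2 * (1 / ((m + k : ℕ) : ℝ) ^ 2)) := by
      intro k hk
      rw [mem_range] at hk
      refine (WU_arg_r hyp hy (i := k) (by omega)).trans (le_of_eq_of_le ?_
        (add_le_add_left (mul_le_mul_of_nonneg_left (?_ : 4 * D * W_q L (m + k + 1) *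
          (1 / ((m + k : ℕ) : ℝ)) ≤ 8 * D * M / (L : ℝ) ^ 2) (by norm_num)) _))
      · have hj : ((m + k : ℕ) : ℝ) ≠ 0 := by
          have : 0 < m + k := by omega
          exact_mod_cast this.ne'
        field_simp
        ring
      · unfold W_q
        have hj : (1 : ℝ) ≤ ((m + k : ℕ) : ℝ) := by exact_mod_cast (by omega : 1 ≤ m + k)
        have hjM : ((m + k + 1 : ℕ) : ℝ) ≤ (M : ℝ) := by exact_mod_cast (by omega : m + k + 1 ≤ M)
        have e1 : ((m + k + 1 : ℕ) : ℝ) = ((m + k : ℕ) : ℝ) + 1 := by push_cast; ring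
        rw [e1] at hjM ⊢
        set x : ℝ := ((m + k : ℕ) : ℝ) with hx
        have e2 : 4 * D * ((x + 1) ^ 2 / (L : ℝ) ^ 2) * (1 / x) =
            4 * D * ((x + 1) ^ 2 / x) / (L : ℝ) ^ 2 := by
          field_simp
        rw [e2]
        refine div_le_div_of_nonneg_right ?_ (by positivity)
        have e3 : (x + 1) ^ 2 / x ≤ 2 * M := by
          rw [div_le_iff₀ (by linarith)]
          nlinarith
        nlinarith
    refine (sum_le_sum h1).trans ?_
    rw [sum_add_distrib, sum_const, card_range, nsmul_eq_mul, ← mul_sum, ← mul_sum]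
    have h2 := WU_sum_sq m hmN n
    have h3 : 0 ≤ 2 / ((m + n : ℕ) : ℝ) := by positivity
    have h4 : ∑ k ∈ range n, 1 / ((m + k : ℕ) : ℝ) ^ 2 ≤ 2 / (m : ℝ) := by linarith
    have h5 : 2 * D ^ 2 * ∑ k ∈ range n, 1 / ((m + k : ℕ) : ℝ) ^ 2 ≤ 1 / 6 := by
      refine (mul_le_mul_of_nonneg_left h4 (by positivity)).trans ?_
      rw [mul_div_assoc', div_le_div_iff₀ hm0 (by norm_num)]
      nlinarith
    have h6 : (n : ℝ) * (16 / 3 * (8 * D * M / (L : ℝ) ^ 2)) ≤ 16 / 3 * (8 / 49) := by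
      have hnM : (n : ℝ) ≤ M := by exact_mod_cast (by omega : n ≤ M)
      have e1 : (n : ℝ) * (16 / 3 * (8 * D * M / (L : ℝ) ^ 2)) =
          16 / 3 * (8 * D * (n * M) / (L : ℝ) ^ 2) := by ring
      rw [e1]
      refine mul_le_mul_of_nonneg_left ?_ (by norm_num)
      rw [div_le_div_iff₀ (by positivity) (by norm_num)]
      have e2 : ((M : ℝ) * (7 * D)) ^ 2 ≤ (L : ℝ) ^ 2 := pow_le_pow_left₀ (by positivity) hML 2
      have e3 : (n : ℝ) * M ≤ (M : ℝ) ^ 2 := by
        rw [sq]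
        exact mul_le_mul_of_nonneg_right hnM (Nat.cast_nonneg _)
      have e4 : D * (n * M) * 49 ≤ D ^ 2 * (M : ℝ) ^ 2 * 49 := by
        have : D * (n * M) ≤ D * (D * (M : ℝ) ^ 2) := by
          refine mul_le_mul_of_nonneg_left ?_ (by linarith)
          refine e3.trans ?_
          nlinarith [sq_nonneg (M : ℝ)]
        nlinarith
      nlinarith
    linarith
  have hlog : Real.log L - 6 * D ≤ ∑ k ∈ range (n + 1), 1 / ((m + k : ℕ) : ℝ) := by
    refine le_trans ?_ (W_harm m hmN (n + 1))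
    have e1 : ((m + (n + 1) : ℕ) : ℝ) = (M : ℝ) + 1 := by
      rw [show m + (n + 1) = M + 1 by omega]; push_cast; ring
    rw [e1]
    have e2 : (L : ℝ) / (175 * D ^ 3) ≤ ((M : ℝ) + 1) / m := by
      rw [div_le_div_iff₀ (by positivity) hm0]
      rw [div_lt_iff₀ (by positivity)] at hM2
      have h1 : (L : ℝ) * m ≤ (((M : ℝ) + 1) * (7 * D)) * (25 * D ^ 2) :=
        mul_le_mul hM2.le hm25 hm0.le (by positivity)
      refine h1.trans (le_of_eq ?_)
      ring
    refine le_trans ?_ (Real.log_le_log (by positivity) e2)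
    rw [Real.log_div (by positivity) (by positivity), Real.log_mul (by norm_num) (by positivity),
      Real.log_pow]
    have e3 : Real.log D ≤ D - 1 := Real.log_le_sub_one_of_pos (by linarith)
    have e4 : Real.log 175 ≤ 6 := by
      rw [Real.log_le_iff_le_exp (by norm_num)]
      have h1 := Real.add_one_le_exp (1 : ℝ)
      have h2 : (2.7 : ℝ) ≤ Real.exp 1 := by
        have := Real.exp_one_gt_d9
        linarith
      have h3 : Real.exp 6 = Real.exp 1 ^ 6 := by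
        rw [← Real.exp_nat_mul]; norm_num
      rw [h3]
      have h4 : (2.7 : ℝ) ^ 6 ≤ Real.exp 1 ^ 6 := pow_le_pow_left₀ (by norm_num) h2 6
      refine le_trans ?_ h4
      norm_num
    push_cast
    nlinarith
  have hsq : D * ∑ k ∈ range (n + 1), 1 / ((m + k : ℕ) : ℝ) ^ 2 ≤ 1 := by
    have h2 := WU_sum_sq m hmN (n + 1)
    have h3 : 0 ≤ 2 / ((m + (n + 1) : ℕ) : ℝ) := by positivity
    have h4 : ∑ k ∈ range (n + 1), 1 / ((m + k : ℕ) : ℝ) ^ 2 ≤ 2 / (m : ℝ) := by linarith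
    refine (mul_le_mul_of_nonneg_left h4 (by linarith)).trans ?_
    rw [mul_div_assoc', div_le_iff₀ hm0]
    nlinarith
  have hph : 2 * Y * (Real.log L - 6 * D) - 7 ≤ W_Th L m (-Y) n - W_Th L m Y n := by
    have h1 := (abs_le.1 (herr (-Y) hy1)).1
    have h2 := (abs_le.1 (herr Y hy2)).2
    have h3 : 2 * Y * (Real.log L - 6 * D) ≤
        2 * Y * ∑ k ∈ range (n + 1), 1 / ((m + k : ℕ) : ℝ) :=
      mul_le_mul_of_nonneg_left hlog (by linarith)
    unfold W_Th
    linarith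
  have h7 : (2 * Y * (Real.log L - 6 * D) - 7) / Real.pi ≤
      (W_Th L m (-Y) n - W_Th L m Y n) / Real.pi :=
    div_le_div_of_nonneg_right hph Real.pi_pos.le
  have h8 : 2 * Y / Real.pi * Real.log L - 20 * D ^ 2 ≤
      (2 * Y * (Real.log L - 6 * D) - 7) / Real.pi - 1 := by
    have e1 : (2 * Y * (Real.log L - 6 * D) - 7) / Real.pi =
        2 * Y / Real.pi * Real.log L - (12 * Y * D + 7) / Real.pi := by
      field_simp
      ring
    rw [e1]
    have e2 : (12 * Y * D + 7) / Real.pi ≤ 12 * Y * D + 7 := by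
      rw [div_le_iff₀ Real.pi_pos]
      have : 1 ≤ Real.pi := by linarith [Real.pi_gt_three]
      nlinarith [mul_nonneg hY (by linarith : 0 ≤ D)]
    have e3 : 12 * Y * D + 7 + 1 ≤ 20 * D ^ 2 := by nlinarith
    linarith
  linarith

end

end Pool.Agent.H160R2.SA
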