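import Pool.Agent.H160R2.SA.MuU
import Pool.Agent.H160R2.SA.WkbU
import Pool.Agent.H160R2.OA.Dens

/-!
# Sharp lower bound for the number of eigenvalues (task SA-N, helper18)
-/

set_option autoImplicit false

namespace Pool.Agent.H160R2.SA
open Finset MeasureTheory
open Pool.Agent.H160R2.OA Pool.Agent.H160R2.HL Pool.Agent.H160R2.NE

/-- `(2 + 2 c log L)² ≤ L` for large `L` -/
theorem N_large (c : ℝ) : ∃ L0 : ℕ, ∀ L : ℕ, L0 ≤ L →
    (2 + 2 * c * Real.log L) ^ 2 ≤ (L : ℝ) := by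
  have h1 : Filter.Tendsto (fun L : ℕ => (L : ℝ)) Filter.atTop Filter.atTop :=
    tendsto_natCast_atTop_atTop
  have h2 : (fun x : ℝ => (2 + 2 * c * Real.log x) ^ 2) =o[Filter.atTop] (fun x : ℝ => x) := by
    have h3 : (fun x : ℝ => 2 + 2 * c * Real.log x) =o[Filter.atTop]
        (fun x : ℝ => x ^ (1 / 2 : ℝ)) := by
      apply Asymptotics.IsLittleO.add
      · apply Asymptotics.isLittleO_const_left.2
        right
        have h4 := tendsto_rpow_atTop (y := 1 / 2) (by norm_num)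
        exact tendsto_norm_atTop_atTop.comp h4
      · exact (isLittleO_log_rpow_atTop (by norm_num)).const_mul_left (2 * c)
    have h5 := h3.pow (n := 2) (by norm_num)
    refine h5.trans_eventuallyEq ?_
    filter_upwards [Filter.eventually_ge_atTop (0 : ℝ)] with x hx
    rw [← Real.rpow_natCast, ← Real.rpow_mul hx]
    norm_num
  have h6 := (h2.comp_tendsto h1).bound (c := 1) one_pos
  obtain ⟨L0, hL0⟩ := Filter.eventually_atTop.1 h6
  refine ⟨L0, fun L hL => ?_⟩
  have h7 := hL0 L hL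
  simp only [Function.comp_apply, Real.norm_eq_abs, one_mul] at h7
  rw [abs_of_nonneg (sq_nonneg _), abs_of_nonneg (Nat.cast_nonneg L)] at h7
  exact h7

theorem dens_u : ∃ C c : ℝ, 0 < C ∧ 0 < c ∧ ∃ L0 : ℕ, ∀ L : ℕ, L0 ≤ L →
    ∀ (hJ : (J L).IsHermitian) (μ : Fin L → ℝ), IsMu L hJ μ → ∀ t : ℝ, 0 ≤ t →
      t ^ 2 ≤ c * Real.log L → 3 / Real.pi ^ 2 * t * Real.log L - C * (1 + t) ^ 2 ≤
        ((univ.filter (fun i => |Real.log (μ i)| ≤ t)).card : ℝ) := by
  classical
  have hpi : 0 < Real.pi := Real.pi_pos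
  have hpi3 : 3 < Real.pi := Real.pi_gt_three
  obtain ⟨c, hc, La, hLa⟩ := mu_u
  obtain ⟨C, hC, Lb, hLb⟩ := wkb_u
  obtain ⟨Lc, hLc⟩ := N_large c
  refine ⟨C + 3, c, by linarith, hc, max (max La 1) (max Lb Lc), fun L hL hJ μ hμ t ht0 ht => ?_⟩
  have hLa' : La ≤ L := (le_max_left _ _).trans ((le_max_left _ _).trans hL)
  have hL1 : 1 ≤ L := (le_max_right _ _).trans ((le_max_left _ _).trans hL)
  have hLb' : Lb ≤ L := (le_max_left _ _).trans ((le_max_right _ _).trans hL)
  have hLc' : Lc ≤ L := (le_max_right _ _).trans ((le_max_right _ _).trans hL)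
  have hLr : (1 : ℝ) ≤ L := by exact_mod_cast hL1
  have hL0 : (0 : ℝ) < L := by linarith
  have hlog : 0 ≤ Real.log (L : ℝ) := Real.log_natCast_nonneg L
  have hlogL : Real.log (L : ℝ) ≤ L := (Real.log_le_sub_one_of_pos hL0).trans (by linarith)
  have h3p : 3 / Real.pi ^ 2 ≤ 1 := by
    rw [div_le_one (by positivity)]
    nlinarith
  have h3p0 : 0 ≤ 3 / Real.pi ^ 2 := by positivity
  have hlogdiv : 3 / Real.pi ^ 2 * (1 / (L : ℝ)) * Real.log L ≤ 1 := by
    have h1 : 1 / (L : ℝ) * Real.log L ≤ 1 := by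
      rw [one_div, inv_mul_le_iff₀ hL0, mul_one]
      exact hlogL
    have h2 : 0 ≤ 1 / (L : ℝ) * Real.log L := by positivity
    rw [mul_assoc]
    calc 3 / Real.pi ^ 2 * (1 / (L : ℝ) * Real.log L) ≤ 1 * 1 :=
          mul_le_mul h3p h1 h2 zero_le_one
      _ = 1 := one_mul 1
  have h1t : (1 : ℝ) ≤ (1 + t) ^ 2 := by nlinarith
  rcases le_or_gt t (1 / (L : ℝ)) with htL | htL
  · have h1 : 3 / Real.pi ^ 2 * t * Real.log L ≤ 1 := by
      refine le_trans ?_ hlogdiv
      apply mul_le_mul_of_nonneg_right _ hlog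
      exact mul_le_mul_of_nonneg_left htL h3p0
    have h2 : 3 / Real.pi ^ 2 * t * Real.log L - (C + 3) * (1 + t) ^ 2 ≤ 0 := by nlinarith
    exact h2.trans (Nat.cast_nonneg _)
  · set Y : ℝ := 3 / (2 * Real.pi) * (t - 1 / L) with hY
    have h32 : 3 / (2 * Real.pi) ≤ 1 := by
      rw [div_le_one (by positivity)]
      linarith
    have htL' : 0 ≤ t - 1 / (L : ℝ) := by linarith
    have hY0 : 0 ≤ Y := by positivity
    have hL1' : 0 ≤ 1 / (L : ℝ) := by positivity
    have hYt : Y ≤ t := by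
      have : Y ≤ 1 * (t - 1 / L) := mul_le_mul_of_nonneg_right h32 htL'
      linarith
    have hY2 : Y ^ 2 ≤ c * Real.log L := (pow_le_pow_left₀ hY0 hYt 2).trans ht
    have hY4 : (1 + Y) ^ 4 ≤ (L : ℝ) := by
      have h1 : (1 + Y) ^ 2 ≤ 2 + 2 * c * Real.log L := by nlinarith [sq_nonneg (1 - Y)]
      calc (1 + Y) ^ 4 = ((1 + Y) ^ 2) ^ 2 := by ring
        _ ≤ (2 + 2 * c * Real.log L) ^ 2 := pow_le_pow_left₀ (by positivity) h1 2
        _ ≤ L := hLc L hLc'
    obtain ⟨m, n, hm, hn, hmn, S, hS, hcard⟩ := hLb L hLb' Y hY0 hY4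
    have h3 : (0 : ℝ) < √3 := Real.sqrt_pos.2 (by norm_num)
    have hcnt := count_of_trunc L m n hm hn hmn 0 (√3 * Y)
      (S.image (fun y => √3 * y)) (by
        intro e he
        obtain ⟨y, hy, rfl⟩ := Finset.mem_image.1 he
        obtain ⟨ha, hb, hc⟩ := hS y hy
        refine ⟨?_, hc⟩
        rw [sub_zero, abs_mul, abs_of_pos h3]
        apply mul_le_mul_of_nonneg_left _ h3.le
        rw [abs_le]
        exact ⟨ha, hb⟩) hJ
    have himg : (S.image (fun y => √3 * y)).card = S.card := by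
      apply Finset.card_image_of_injective
      intro x y hxy
      exact mul_left_cancel₀ h3.ne' hxy
    rw [himg] at hcnt
    have hsub : (univ.filter (fun i => |hJ.eigenvalues i - 0| ≤ √3 * Y)) ⊆
        (univ.filter (fun i => |Real.log (μ i)| ≤ t)) := by
      intro i hi
      rw [Finset.mem_filter] at hi ⊢
      refine ⟨Finset.mem_univ _, ?_⟩
      obtain ⟨-, hmuv, -, -⟩ := hμ
      obtain ⟨v, hv0, hv1, hv2⟩ := hmuv i
      set y : ℝ := hJ.eigenvalues i / √3 with hy
      have hEy : hJ.eigenvalues i = √3 * y := by rw [hy]; field_simp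
      have h4 := hi.2
      rw [hEy, sub_zero, abs_mul, abs_of_pos h3] at h4
      have h5 : |y| ≤ Y := le_of_mul_le_mul_left h4 h3
      rw [hEy] at hv1
      have h7 : y ^ 2 ≤ c * Real.log L := by
        rw [← sq_abs]
        exact (pow_le_pow_left₀ (abs_nonneg _) h5 2).trans hY2
      obtain ⟨-, h6⟩ := hLa L hLa' y h7 v hv0 hv1 (μ i) hv2
      have h8 : |2 * Real.pi * y / 3| ≤ t - 1 / L := by
        have h9 : 2 * Real.pi * y / 3 = 2 * Real.pi / 3 * y := by ring
        rw [h9, abs_mul, abs_of_pos (by positivity)]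
        have h10 : 2 * Real.pi / 3 * |y| ≤ 2 * Real.pi / 3 * Y :=
          mul_le_mul_of_nonneg_left h5 (by positivity)
        have h11 : 2 * Real.pi / 3 * Y = t - 1 / L := by
          rw [hY]; field_simp
        linarith
      have h12 : |Real.log (μ i)| ≤ |Real.log (μ i) - 2 * Real.pi * y / 3| +
          |2 * Real.pi * y / 3| := by
        have h13 := abs_add_le (Real.log (μ i) - 2 * Real.pi * y / 3) (2 * Real.pi * y / 3)
        rwa [sub_add_cancel] at h13
      linarith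
    have hcs := Finset.card_le_card hsub
    have hS2 : (S.card : ℝ) ≤
        2 + ((univ.filter (fun i => |Real.log (μ i)| ≤ t)).card : ℝ) := by
      exact_mod_cast hcnt.trans (Nat.add_le_add_left hcs 2)
    have e1 : 2 * Y / Real.pi * Real.log L = 3 / Real.pi ^ 2 * t * Real.log L -
        3 / Real.pi ^ 2 * (1 / (L : ℝ)) * Real.log L := by
      rw [hY]; field_simp
    have e2 : C * (1 + Y) ^ 2 ≤ C * (1 + t) ^ 2 := by
      apply mul_le_mul_of_nonneg_left _ hC.le
      exact pow_le_pow_left₀ (by linarith) (by linarith) 2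
    nlinarith

end Pool.Agent.H160R2.SA
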