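import Pool.Agent.H160R2.OA.Gen
import Pool.Agent.H160R2.OA.SolBdd
import Pool.Agent.H160R2.HL.Defs
import Pool.Agent.H160R2.NE.Lin

/-! Task SA-O: the generating polynomial of the truncated solution at `1/2` -/

set_option autoImplicit false

namespace Pool.Agent.H160R2.SA
open Finset MeasureTheory
open Pool.Agent.H160R2.OA Pool.Agent.H160R2.HL Pool.Agent.H160R2.NE

theorem O_poly (s : ℕ → ℝ) (e x : ℝ) (N : ℕ) :
    (1 - x + x ^ 2) * (∑ j ∈ range (N + 1), s j * (j * x ^ (j - 1))) -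
      (1 / 2 + e - x) * (∑ j ∈ range (N + 1), s j * x ^ j) =
    ∑ j ∈ range N, (((j : ℝ) + 1) * s (j + 1) - (j + 1 / 2 + e) * s j + j * s (j - 1)) * x ^ j +
      (N * s (N - 1) - (N + 1 / 2 + e) * s N) * x ^ N + (N + 1) * s N * x ^ (N + 1) := by
  induction N with
  | zero => simp; ring
  | succ N ih =>
    rw [Finset.sum_range_succ (fun j : ℕ => s j * (j * x ^ (j - 1))) (N + 1),
      Finset.sum_range_succ (fun j => s j * x ^ j) (N + 1),
      Finset.sum_range_succ (fun j : ℕ => (((j : ℝ) + 1) * s (j + 1) - (j + 1 / 2 + e) * s j +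
        j * s (j - 1)) * x ^ j) N]
    simp only [Nat.add_sub_cancel]
    push_cast
    push_cast at ih
    linear_combination ih

theorem O_sum3 (N : ℕ) :
    ∑ j ∈ range N, ((j : ℝ) + 1) ^ 3 * (1 / 2) ^ j =
      52 - (2 * (N : ℝ) ^ 3 + 12 * (N : ℝ) ^ 2 + 36 * N + 52) * (1 / 2) ^ N := by
  induction N with
  | zero => norm_num
  | succ N ih =>
    rw [Finset.sum_range_succ, ih]
    push_cast
    ring

theorem O_sum3_le (N : ℕ) : ∑ j ∈ range N, ((j : ℝ) + 1) ^ 3 * (1 / 2) ^ j ≤ 52 := by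
  rw [O_sum3]
  have : 0 ≤ (2 * (N : ℝ) ^ 3 + 12 * (N : ℝ) ^ 2 + 36 * N + 52) * (1 / 2) ^ N := by positivity
  linarith

theorem O_term3_le (N : ℕ) : ((N : ℝ) + 1) ^ 3 * (1 / 2) ^ N ≤ 52 := by
  refine le_trans ?_ (O_sum3_le (N + 1))
  rw [Finset.sum_range_succ]
  have : 0 ≤ ∑ j ∈ range N, ((j : ℝ) + 1) ^ 3 * (1 / 2) ^ j :=
    Finset.sum_nonneg fun j _ => by positivity
  linarith

/-- the recurrence of `sol`, uniformly in `j` -/
theorem O_rec {L : ℕ} (e : ℝ) {j : ℕ} (hj : ((j + 1 : ℕ) : ℝ) ≤ 7 / 10 * L) :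
    ((j : ℝ) + 1) * sol L e (j + 1) - (j + 1 / 2 + e) * sol L e j + j * sol L e (j - 1) =
      (((j : ℝ) + 1) ^ 3 * sol L e (j + 1) - (2 * j + 1) * ((j : ℝ) ^ 2 + j + 1 / 2) * sol L e j +
        (j : ℝ) ^ 3 * sol L e (j - 1)) / (L : ℝ) ^ 2 := by
  have hL : 0 < L := by
    rcases Nat.eq_zero_or_pos L with h | h
    · subst h; push_cast at hj; have : (0 : ℝ) ≤ j := Nat.cast_nonneg j; linarith
    · exact h
  have hLr : (0 : ℝ) < L := by exact_mod_cast hL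
  have hrec : b L (j + 1) * sol L e (j + 1) = (e - a L j) * sol L e j - b L j * sol L e (j - 1) := by
    rcases j with _ | j
    · have hb := SB.b_lower hj
      have hb0 : b L 1 ≠ 0 := by
        have : 0 < b L 1 := lt_of_lt_of_le (by norm_num) hb
        exact this.ne'
      have h1 : sol L e 1 = (e - a L 0) / b L 1 := rfl
      have h0 : sol L e 0 = 1 := rfl
      have hb00 : b L 0 = 0 := by simp [b]
      simp only [Nat.zero_add, h1, h0, hb00]
      field_simp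
      ring
    · have := SB.sol_rec e hj
      simpa using this
  have hbj1 := SB.b_eq L (j + 1)
  have hbj := SB.b_eq L j
  have haj := SB.a_eq L j hL
  push_cast at hbj1
  rw [hbj1, hbj, haj] at hrec
  rw [div_eq_mul_one_div]
  linear_combination hrec

theorem O_c_abs {L : ℕ} (e S : ℝ) (hS : ∀ j : ℕ, (j : ℝ) ≤ 7 / 10 * L → |sol L e j| ≤ S) {j : ℕ}
    (hj : ((j + 1 : ℕ) : ℝ) ≤ 7 / 10 * L) :
    |((j : ℝ) + 1) * sol L e (j + 1) - (j + 1 / 2 + e) * sol L e j + j * sol L e (j - 1)| ≤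
      4 * ((j : ℝ) + 1) ^ 3 * S / (L : ℝ) ^ 2 := by
  rw [O_rec e hj, abs_div, abs_of_nonneg (by positivity : (0 : ℝ) ≤ (L : ℝ) ^ 2)]
  have hj' : (j : ℝ) + 1 ≤ 7 / 10 * L := by exact_mod_cast hj
  have h1 := hS (j + 1) hj
  have h2 := hS j (by linarith)
  have h3 := hS (j - 1) (by
    have : ((j - 1 : ℕ) : ℝ) ≤ j := by exact_mod_cast Nat.sub_le j 1
    linarith)
  have hj0 : (0 : ℝ) ≤ j := Nat.cast_nonneg j
  have hS0 : 0 ≤ S := (abs_nonneg _).trans h2
  refine div_le_div_of_nonneg_right ?_ (by positivity)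
  have e1 : |((j : ℝ) + 1) ^ 3 * sol L e (j + 1)| ≤ ((j : ℝ) + 1) ^ 3 * S := by
    rw [abs_mul, abs_of_nonneg (by positivity : (0 : ℝ) ≤ ((j : ℝ) + 1) ^ 3)]
    exact mul_le_mul_of_nonneg_left h1 (by positivity)
  have e2 : |(2 * j + 1) * ((j : ℝ) ^ 2 + j + 1 / 2) * sol L e j| ≤
      (2 * j + 1) * ((j : ℝ) ^ 2 + j + 1 / 2) * S := by
    rw [abs_mul, abs_of_nonneg (by positivity : (0 : ℝ) ≤ (2 * j + 1) * ((j : ℝ) ^ 2 + j + 1 / 2))]
    exact mul_le_mul_of_nonneg_left h2 (by positivity)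
  have e3 : |(j : ℝ) ^ 3 * sol L e (j - 1)| ≤ (j : ℝ) ^ 3 * S := by
    rw [abs_mul, abs_of_nonneg (by positivity : (0 : ℝ) ≤ (j : ℝ) ^ 3)]
    exact mul_le_mul_of_nonneg_left h3 (by positivity)
  have e4 := abs_add_le (((j : ℝ) + 1) ^ 3 * sol L e (j + 1) -
    (2 * j + 1) * ((j : ℝ) ^ 2 + j + 1 / 2) * sol L e j) ((j : ℝ) ^ 3 * sol L e (j - 1))
  have e5 := abs_sub (((j : ℝ) + 1) ^ 3 * sol L e (j + 1))
    ((2 * j + 1) * ((j : ℝ) ^ 2 + j + 1 / 2) * sol L e j)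
  have e6 : ((j : ℝ) + 1) ^ 3 * S + (2 * j + 1) * ((j : ℝ) ^ 2 + j + 1 / 2) * S + (j : ℝ) ^ 3 * S ≤
      4 * ((j : ℝ) + 1) ^ 3 * S := by
    have : 0 ≤ (6 * (j : ℝ) ^ 2 + 7 * j + 5 / 2) * S := by positivity
    nlinarith
  linarith

theorem O_G_A_bound {x : ℝ} (hx0 : 0 ≤ x) (hx1 : x ≤ 1 / 2) :
    0 ≤ √3 * G_A x ∧ √3 * G_A x ≤ 3 / 2 := by
  have h30 : (0 : ℝ) < √3 := by positivity
  have hmono : Monotone G_A := by
    intro u v huv
    unfold G_A
    have h : Real.arctan ((2 * u - 1) / √3) ≤ Real.arctan ((2 * v - 1) / √3) :=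
      Real.arctan_strictMono.monotone (div_le_div_of_nonneg_right (by linarith) h30.le)
    have h2 : (0 : ℝ) ≤ 2 / √3 := by positivity
    exact mul_le_mul_of_nonneg_left (by linarith) h2
  have h0 := hmono hx0
  have h1 := hmono hx1
  rw [G_A_zero] at h0
  refine ⟨mul_nonneg h30.le h0, ?_⟩
  have h2 := mul_le_mul_of_nonneg_left h1 h30.le
  rw [G_A_half] at h2
  have := Real.pi_lt_d2
  linarith

theorem O_Hderiv (y x g g' : ℝ) (f : ℝ → ℝ) (hfd : HasDerivAt f g' x) (hg : f x = g) :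
    HasDerivAt (fun x => f x * √(1 - x + x ^ 2) * Real.exp (-(√3 * y * G_A x)))
      (((1 - x + x ^ 2) * g' - (1 / 2 + √3 * y - x) * g) / √(1 - x + x ^ 2) *
        Real.exp (-(√3 * y * G_A x))) x := by
  have hp0 : 0 < 1 - x + x ^ 2 := by nlinarith [sq_nonneg (x - 1 / 2)]
  have h2 : HasDerivAt (fun x : ℝ => 1 - x + x ^ 2) (-1 + 2 * x) x := by
    have h : HasDerivAt (fun x : ℝ => 1 - x + x ^ 2) (-1 + ((2 : ℕ) : ℝ) * x ^ (2 - 1)) x :=
      ((hasDerivAt_id x).const_sub 1).add (hasDerivAt_pow 2 x)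
    simpa using h
  have h4 := h2.sqrt hp0.ne'
  have h5 := (((G_A_deriv x).const_mul (√3 * y)).neg).exp
  have h6 := (hfd.mul h4).mul h5
  refine h6.congr_deriv ?_
  have hs' : 0 < √(1 - x + x ^ 2) := Real.sqrt_pos.2 hp0
  have hs2 : √(1 - x + x ^ 2) ^ 2 = 1 - x + x ^ 2 := Real.sq_sqrt hp0.le
  simp only [Pi.mul_apply]
  rw [hg]
  have hE : Real.exp ((-fun y_1 => √3 * y * G_A y_1) x) = Real.exp (-(√3 * y * G_A x)) := rfl
  rw [hE]
  generalize Real.exp (-(√3 * y * G_A x)) = E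
  have hne : √(1 - x + x ^ 2) ≠ 0 := hs'.ne'
  generalize √(1 - x + x ^ 2) = r at *
  generalize √3 * y = e at *
  rw [← hs2]
  have key : g' * r + g * ((-1 + 2 * x) / (2 * r)) + g * r * (-(e * (1 / r ^ 2))) =
      (r ^ 2 * g' - (1 / 2 + e - x) * g) / r := by
    field_simp
    ring
  linear_combination E * key

theorem F_ode : ∃ C : ℝ, 0 < C ∧ ∀ (L : ℕ) (y S : ℝ), 10 ≤ L →
    (∀ j : ℕ, (j : ℝ) ≤ 7 / 10 * L → |sol L (√3 * y) j| ≤ S) →
    |∑ j ∈ (range L).filter (fun j : ℕ => (j : ℝ) ≤ 7 / 10 * L), sol L (√3 * y) j / 2 ^ j -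
      2 / √3 * Real.exp (Real.pi * y / 3)| ≤
      C * S * (1 + |y|) * Real.exp (3 * |y|) / (L : ℝ) ^ 2 := by
  refine ⟨1056, by norm_num, fun L y S hL hS => ?_⟩
  have hL' : (10 : ℝ) ≤ L := by exact_mod_cast hL
  set e : ℝ := √3 * y with he
  set s : ℕ → ℝ := sol L e with hs
  obtain ⟨N, hN⟩ : ∃ N : ℕ, N = ⌊(7 / 10 * L : ℝ)⌋₊ := ⟨_, rfl⟩
  have hN1 : (N : ℝ) ≤ 7 / 10 * L := by rw [hN]; exact Nat.floor_le (by positivity)
  have hN2 : 7 / 10 * (L : ℝ) < N + 1 := by rw [hN]; exact Nat.lt_floor_add_one _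
  have hfil : (range L).filter (fun j : ℕ => (j : ℝ) ≤ 7 / 10 * L) = range (N + 1) := by
    ext j
    simp only [Finset.mem_filter, Finset.mem_range]
    constructor
    · rintro ⟨_, h⟩
      have : (j : ℝ) < ((N + 1 : ℕ) : ℝ) := by push_cast; linarith
      exact_mod_cast this
    · intro h
      have h' : (j : ℝ) ≤ N := by exact_mod_cast Nat.lt_succ_iff.1 h
      refine ⟨?_, by linarith⟩
      have : (j : ℝ) < L := by linarith
      exact_mod_cast this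
  rw [hfil]
  have hS0 : 0 ≤ S := (abs_nonneg _).trans (hS 0 (by push_cast; positivity))
  have h3 : √3 ^ 2 = 3 := Real.sq_sqrt (by norm_num)
  have h30 : (0 : ℝ) < √3 := by positivity
  have h32 : √3 ≤ 2 := by nlinarith
  have h31 : 1 ≤ √3 := by nlinarith
  have hy0 : 0 ≤ |y| := abs_nonneg y
  set f : ℝ → ℝ := fun x => ∑ j ∈ range (N + 1), s j * x ^ j with hf
  set f' : ℝ → ℝ := fun x => ∑ j ∈ range (N + 1), s j * (j * x ^ (j - 1)) with hf'
  have hfd : ∀ x : ℝ, HasDerivAt f (f' x) x := by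
    intro x
    have := HasDerivAt.fun_sum (u := range (N + 1)) (A := fun j x => s j * x ^ j)
      (A' := fun j => s j * (j * x ^ (j - 1))) (x := x)
      (fun j _ => (hasDerivAt_pow j x).const_mul (s j))
    exact this
  set R : ℝ → ℝ := fun x => (1 - x + x ^ 2) * f' x - (1 / 2 + e - x) * f x with hR
  set K : ℝ := 528 * S * (1 + |y|) / (L : ℝ) ^ 2 with hK
  have hK0 : 0 ≤ K := by rw [hK]; positivity
  -- bound on R
  have hRb : ∀ x : ℝ, 0 ≤ x → x ≤ 1 / 2 → |R x| ≤ K := by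
    intro x hx0 hx1
    have hpol := O_poly s e x N
    have hRx : R x = _ := hpol
    rw [hRx]
    have t1 : |∑ j ∈ range N, (((j : ℝ) + 1) * s (j + 1) - (j + 1 / 2 + e) * s j +
        j * s (j - 1)) * x ^ j| ≤ 208 * S / (L : ℝ) ^ 2 := by
      refine (Finset.abs_sum_le_sum_abs _ _).trans ?_
      have : ∀ j ∈ range N, |(((j : ℝ) + 1) * s (j + 1) - (j + 1 / 2 + e) * s j +
          j * s (j - 1)) * x ^ j| ≤ (4 * S / (L : ℝ) ^ 2) * (((j : ℝ) + 1) ^ 3 * (1 / 2) ^ j) := by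
        intro j hj
        have hj' : ((j + 1 : ℕ) : ℝ) ≤ 7 / 10 * L := by
          have : ((j + 1 : ℕ) : ℝ) ≤ N := by exact_mod_cast (Finset.mem_range.1 hj)
          linarith
        have hc := O_c_abs e S hS hj'
        rw [abs_mul, abs_pow, abs_of_nonneg hx0]
        have hp : x ^ j ≤ (1 / 2) ^ j := pow_le_pow_left₀ hx0 hx1 j
        calc _ ≤ (4 * ((j : ℝ) + 1) ^ 3 * S / (L : ℝ) ^ 2) * (1 / 2) ^ j :=
              mul_le_mul hc hp (by positivity) ((abs_nonneg _).trans hc)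
          _ = _ := by ring
      refine (Finset.sum_le_sum this).trans ?_
      rw [← Finset.mul_sum]
      have h52 := O_sum3_le N
      have h4 : 0 ≤ 4 * S / (L : ℝ) ^ 2 := by positivity
      calc _ ≤ 4 * S / (L : ℝ) ^ 2 * 52 := mul_le_mul_of_nonneg_left h52 h4
        _ = _ := by ring
    have hsN : |s N| ≤ S := hS N hN1
    have hsN1 : |s (N - 1)| ≤ S := hS (N - 1) (by
      have : ((N - 1 : ℕ) : ℝ) ≤ N := by exact_mod_cast Nat.sub_le N 1
      linarith)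
    have hxN : x ^ N ≤ (1 / 2) ^ N := pow_le_pow_left₀ hx0 hx1 N
    have hN0 : (0 : ℝ) ≤ N := Nat.cast_nonneg N
    have he' : |e| ≤ 2 * |y| := by
      rw [he, abs_mul, abs_of_pos h30]
      exact mul_le_mul_of_nonneg_right h32 hy0
    have t2 : |(N * s (N - 1) - (N + 1 / 2 + e) * s N) * x ^ N + (N + 1) * s N * x ^ (N + 1)| ≤
        3 * (N + 1) * (1 + |y|) * S * (1 / 2) ^ N := by
      have q1 : (N * s (N - 1) - (N + 1 / 2 + e) * s N) * x ^ N + (N + 1) * s N * x ^ (N + 1) =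
        (N * s (N - 1) - (N + 1 / 2 + e) * s N + (N + 1) * s N * x) * x ^ N := by ring
      rw [q1, abs_mul, abs_pow, abs_of_nonneg hx0]
      refine mul_le_mul ?_ hxN (by positivity) (by positivity)
      have q2 : |N * s (N - 1)| ≤ N * S := by
        rw [abs_mul, abs_of_nonneg hN0]; exact mul_le_mul_of_nonneg_left hsN1 hN0
      have q3 : |(N + 1 / 2 + e) * s N| ≤ (N + 1 / 2 + 2 * |y|) * S := by
        rw [abs_mul]
        refine mul_le_mul ?_ hsN (abs_nonneg _) (by positivity)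
        refine (abs_add_le _ _).trans ?_
        rw [abs_of_nonneg (by positivity : (0 : ℝ) ≤ (N : ℝ) + 1 / 2)]
        linarith
      have q4 : |(N + 1) * s N * x| ≤ (N + 1) * S * (1 / 2) := by
        rw [abs_mul, abs_mul, abs_of_nonneg hx0, abs_of_nonneg (by positivity : (0 : ℝ) ≤ (N : ℝ) + 1)]
        exact mul_le_mul (mul_le_mul_of_nonneg_left hsN (by positivity)) hx1 hx0 (by positivity)
      have q5 := abs_add_le (N * s (N - 1) - (N + 1 / 2 + e) * s N) ((N + 1) * s N * x)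
      have q6 := abs_sub (N * s (N - 1)) ((N + 1 / 2 + e) * s N)
      have q7 : 0 ≤ (N : ℝ) * |y| * S := by positivity
      have q8 : 0 ≤ (N : ℝ) * S := by positivity
      have q9 : 0 ≤ |y| * S := by positivity
      nlinarith
    have t3 : 3 * ((N : ℝ) + 1) * (1 + |y|) * S * (1 / 2) ^ N ≤ 320 * S * (1 + |y|) / (L : ℝ) ^ 2 := by
      have q1 := O_term3_le N
      have hLpos : (0 : ℝ) < (L : ℝ) ^ 2 := by positivity
      rw [le_div_iff₀ hLpos]
      have q2 : 49 / 100 * (L : ℝ) ^ 2 ≤ ((N : ℝ) + 1) ^ 2 := by nlinarith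
      have q3 : 0 ≤ 3 * ((N : ℝ) + 1) * (1 + |y|) * S * (1 / 2) ^ N := by positivity
      have q4 : 3 * ((N : ℝ) + 1) * (1 + |y|) * S * (1 / 2) ^ N * (49 / 100 * (L : ℝ) ^ 2) ≤
          3 * ((N : ℝ) + 1) * (1 + |y|) * S * (1 / 2) ^ N * ((N : ℝ) + 1) ^ 2 :=
        mul_le_mul_of_nonneg_left q2 q3
      have q5 : 3 * ((N : ℝ) + 1) * (1 + |y|) * S * (1 / 2) ^ N * ((N : ℝ) + 1) ^ 2 =
          3 * (1 + |y|) * S * (((N : ℝ) + 1) ^ 3 * (1 / 2) ^ N) := by ring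
      have q6 : 3 * (1 + |y|) * S * (((N : ℝ) + 1) ^ 3 * (1 / 2) ^ N) ≤ 3 * (1 + |y|) * S * 52 :=
        mul_le_mul_of_nonneg_left q1 (by positivity)
      have q7 : 0 ≤ (1 + |y|) * S := by positivity
      linarith
    have t4 : 208 * S / (L : ℝ) ^ 2 ≤ 208 * S * (1 + |y|) / (L : ℝ) ^ 2 := by
      refine div_le_div_of_nonneg_right ?_ (by positivity)
      nlinarith [mul_nonneg hS0 hy0]
    have t5 : K = 208 * S * (1 + |y|) / (L : ℝ) ^ 2 + 320 * S * (1 + |y|) / (L : ℝ) ^ 2 := by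
      rw [hK]; ring
    rw [t5, add_assoc]
    exact (abs_add_le _ _).trans (add_le_add (t1.trans t4) (t2.trans t3))
  have hpos : ∀ x : ℝ, 3 / 4 ≤ 1 - x + x ^ 2 := fun x => by nlinarith [sq_nonneg (x - 1 / 2)]
  set H : ℝ → ℝ := fun x => f x * √(1 - x + x ^ 2) * Real.exp (-(√3 * y * G_A x)) with hH
  have hHd : ∀ x : ℝ, HasDerivAt H
      (R x / √(1 - x + x ^ 2) * Real.exp (-(√3 * y * G_A x))) x := by
    intro x
    exact O_Hderiv y x (f x) (f' x) f (hfd x) rfl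
  have hH'b : ∀ x ∈ Set.Icc (0 : ℝ) (1 / 2),
      ‖R x / √(1 - x + x ^ 2) * Real.exp (-(√3 * y * G_A x))‖ ≤ 2 * K * Real.exp (3 / 2 * |y|) := by
    rintro x ⟨hx0, hx1⟩
    have hp := hpos x
    have hr : 1 / 2 ≤ √(1 - x + x ^ 2) := Real.le_sqrt_of_sq_le (by linarith)
    rw [Real.norm_eq_abs, abs_mul, abs_div, abs_of_pos (Real.exp_pos _),
      abs_of_nonneg (Real.sqrt_nonneg _)]
    refine mul_le_mul ?_ ?_ (Real.exp_pos _).le (by positivity)
    · rw [div_le_iff₀ (by linarith)]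
      have := hRb x hx0 hx1
      nlinarith
    · refine Real.exp_le_exp.2 ?_
      obtain ⟨g0, g1⟩ := O_G_A_bound hx0 hx1
      have q1 : -(√3 * y * G_A x) = (-y) * (√3 * G_A x) := by ring
      rw [q1]
      have q2 : -y ≤ |y| := neg_le_abs y
      calc (-y) * (√3 * G_A x) ≤ |y| * (√3 * G_A x) := mul_le_mul_of_nonneg_right q2 g0
        _ ≤ |y| * (3 / 2) := mul_le_mul_of_nonneg_left g1 hy0
        _ = _ := by ring
  have hmv := (convex_Icc (0 : ℝ) (1 / 2)).norm_image_sub_le_of_norm_hasDerivWithin_le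
    (f := H) (f' := fun x => R x / √(1 - x + x ^ 2) * Real.exp (-(√3 * y * G_A x)))
    (x := 0) (y := 1 / 2) (C := 2 * K * Real.exp (3 / 2 * |y|))
    (fun x _ => (hHd x).hasDerivWithinAt) hH'b ⟨le_refl _, by norm_num⟩ ⟨by norm_num, le_refl _⟩
  have hf0 : f 0 = 1 := by
    rw [hf]
    simp only
    rw [Finset.sum_eq_single 0]
    · simp [hs, sol]
    · intro n _ hn
      simp [hn]
    · intro h; simp at h
  have hH0 : H 0 = 1 := by
    rw [hH]
    simp only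
    rw [hf0, G_A_zero]
    simp
  have hHh : H (1 / 2) = f (1 / 2) * (√3 / 2) * Real.exp (-(Real.pi * y / 3)) := by
    rw [hH]
    simp only
    have e1 : √(1 - 1 / 2 + (1 / 2 : ℝ) ^ 2) = √3 / 2 := by
      rw [show (1 - 1 / 2 + (1 / 2 : ℝ) ^ 2) = 3 / 2 ^ 2 by norm_num, Real.sqrt_div (by norm_num),
        Real.sqrt_sq (by norm_num)]
    have e2 : √3 * y * G_A (1 / 2) = Real.pi * y / 3 := by
      have := G_A_half
      linear_combination y * this
    rw [e1, e2]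
  have hsum : ∑ j ∈ range (N + 1), s j / 2 ^ j = f (1 / 2) := by
    rw [hf]
    refine Finset.sum_congr rfl fun j _ => ?_
    rw [one_div, inv_pow]
    ring
  rw [hsum]
  have hfin : f (1 / 2) - 2 / √3 * Real.exp (Real.pi * y / 3) =
      2 / √3 * Real.exp (Real.pi * y / 3) * (H (1 / 2) - H 0) := by
    rw [hH0, hHh, Real.exp_neg]
    have he : 0 < Real.exp (Real.pi * y / 3) := Real.exp_pos _
    field_simp
  rw [hfin, abs_mul, abs_mul, abs_of_nonneg (by positivity : (0 : ℝ) ≤ 2 / √3),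
    abs_of_pos (Real.exp_pos _)]
  rw [Real.norm_eq_abs, Real.norm_eq_abs] at hmv
  have hmv2 : |H (1 / 2) - H 0| ≤ K * Real.exp (3 / 2 * |y|) := by
    refine hmv.trans (le_of_eq ?_)
    norm_num
    ring
  have hexp1 : Real.exp (Real.pi * y / 3) ≤ Real.exp (3 / 2 * |y|) := by
    refine Real.exp_le_exp.2 ?_
    have := Real.pi_lt_d2
    have hy1 : y ≤ |y| := le_abs_self y
    have := Real.pi_pos
    nlinarith
  have h23 : 2 / √3 ≤ 2 := by
    rw [div_le_iff₀ h30]; linarith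
  have hexp2 : Real.exp (3 * |y|) = Real.exp (3 / 2 * |y|) * Real.exp (3 / 2 * |y|) := by
    rw [← Real.exp_add]; ring_nf
  calc 2 / √3 * Real.exp (Real.pi * y / 3) * |H (1 / 2) - H 0|
      ≤ 2 * Real.exp (3 / 2 * |y|) * (K * Real.exp (3 / 2 * |y|)) :=
        mul_le_mul (mul_le_mul h23 hexp1 (Real.exp_pos _).le (by norm_num)) hmv2 (abs_nonneg _)
          (by positivity)
    _ = 1056 * S * (1 + |y|) * Real.exp (3 * |y|) / (L : ℝ) ^ 2 := by
        rw [hexp2, hK]; ring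

end Pool.Agent.H160R2.SA
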