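import Pool.Agent.H160R2.OA.Defs
import Pool.Agent.H160R2.OA.Tail

/-! # Task SA-T: the tail of the solution at an eigenvalue, with explicit constants (helper497) -/

set_option autoImplicit false

namespace Pool.Agent.H160R2.SA
open Finset MeasureTheory
open Pool.Agent.H160R2.OA

theorem sol_tail_u (E S : ℝ) (hE : 0 ≤ E) (L : ℕ) (hL : 50 * E + 1000 ≤ (L : ℝ)) (e : ℝ)
    (he : |e| ≤ E) (hev : IsEv L e)
    (hS : ∀ j : ℕ, (j : ℝ) ≤ 7 / 10 * L → |sol L e j| ≤ S) :
    ∑ j ∈ (range L).filter (fun j : ℕ => 7 / 10 * (L : ℝ) < (j : ℝ)), |sol L e j| / 2 ^ j ≤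
      S * (1 / 2) ^ (L / 4) := by
  have hC : 0 < S := by
    have h0 := hS 0 (by simp)
    have h1 : sol L e 0 = 1 := by simp [sol]
    rw [h1, abs_one] at h0
    linarith
  have hEabs : |E| = E := abs_of_nonneg hE
  have hL2 : 50 * |E| + 1000 ≤ (L : ℝ) := by rw [hEabs]; exact hL
  set n0 : ℕ := L / 4 with hn0
  have hn0r : (n0 : ℝ) ≤ (L : ℝ) / 4 := by
    rw [hn0]
    have := @Nat.cast_div_le ℝ _ _ _ L 4
    simpa using this
  have habs := abs_nonneg E
  set m : ℕ := ⌊7 / 10 * (L : ℝ)⌋₊ with hm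
  set M : ℕ := ⌊88 / 100 * (L : ℝ)⌋₊ with hM
  have hm1 : (m : ℝ) ≤ 7 / 10 * (L : ℝ) := Nat.floor_le (by linarith)
  have hm2 : 7 / 10 * (L : ℝ) < (m : ℝ) + 1 := Nat.lt_floor_add_one _
  have hM1 : (M : ℝ) ≤ 88 / 100 * (L : ℝ) := Nat.floor_le (by linarith)
  have hM2 : 88 / 100 * (L : ℝ) < (M : ℝ) + 1 := Nat.lt_floor_add_one _
  have hmM : m ≤ M := by
    have : (m : ℝ) ≤ M := by linarith
    exact_mod_cast this
  have hML : M + 2 < L := by
    have : (M : ℝ) + 2 < L := by linarith
    exact_mod_cast this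
  have hm3 : 1 ≤ m := by
    have : (0 : ℝ) < m := by linarith
    exact_mod_cast this
  obtain ⟨K, hK⟩ := Nat.exists_eq_add_of_le hmM
  -- growth
  have hgrow : ∀ k : ℕ, k ≤ K → ∀ j : ℕ, j ≤ m + k → |sol L e j| ≤ S * 4 ^ k := by
    intro k
    induction k with
    | zero =>
      intro _ j hj
      rw [pow_zero, mul_one]
      apply hS j
      have : (j : ℝ) ≤ m := by exact_mod_cast hj
      linarith
    | succ k ih =>
      intro hk j hj
      have ihk := ih (by omega)
      rcases Nat.lt_or_ge (m + k) j with h | h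
      · obtain ⟨i, rfl⟩ : ∃ i, j = i + 2 := ⟨j - 2, by omega⟩
        have hi : i + 1 = m + k := by omega
        have hir : (i : ℝ) + 1 = m + k := by exact_mod_cast hi
        have hkM : (m : ℝ) + k ≤ M := by
          have : m + k ≤ M := by omega
          exact_mod_cast this
        have hk0 : (0:ℝ) ≤ k := Nat.cast_nonneg k
        have := T_grow E L e he (by linarith) i (by omega) (by linarith) (by linarith)
          (S * 4 ^ k) (ihk i (by omega)) (ihk (i + 1) (by omega))
        rw [pow_succ]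
        linarith
      · refine (ihk j h).trans ?_
        apply mul_le_mul_of_nonneg_left _ hC.le
        exact pow_le_pow_right₀ (by norm_num) (by omega)
  -- decrease
  have hdec : ∀ n : ℕ, M + n < L → |sol L e (M + n)| ≤ |sol L e M| := by
    intro n
    induction n with
    | zero => intro _; exact le_refl _
    | succ n ih =>
      intro hn
      refine le_trans ?_ (ih (by omega))
      have hn0' : (0:ℝ) ≤ n := Nat.cast_nonneg n
      exact T_dec E L e he hev (by linarith) (L - (M + n + 2)) (M + n) (by omega)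
        (by push_cast; linarith)
  have hall : ∀ j : ℕ, j < L → |sol L e j| ≤ S * 4 ^ K := by
    intro j hj
    rcases Nat.lt_or_ge M j with h | h
    · obtain ⟨n, rfl⟩ := Nat.exists_eq_add_of_le h.le
      exact (hdec n hj).trans (hgrow K le_rfl M (by omega))
    · exact hgrow K le_rfl j (by omega)
  -- the sum
  have hsub : (range L).filter (fun j : ℕ => 7 / 10 * (L : ℝ) < (j : ℝ)) ⊆ Ico (m + 1) L := by
    intro j hj
    rw [Finset.mem_filter, Finset.mem_range] at hj
    rw [Finset.mem_Ico]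
    refine ⟨?_, hj.1⟩
    have : (m : ℝ) < j := by linarith [hj.2]
    exact_mod_cast this
  have hKr : 2 * K + n0 ≤ m := by
    have h1 : (M : ℝ) = m + K := by exact_mod_cast hK
    have h2 : 2 * (K : ℝ) + n0 ≤ m := by linarith
    exact_mod_cast h2
  calc ∑ j ∈ (range L).filter (fun j : ℕ => 7 / 10 * (L : ℝ) < (j : ℝ)), |sol L e j| / 2 ^ j
      ≤ ∑ j ∈ Ico (m + 1) L, |sol L e j| / 2 ^ j :=
        Finset.sum_le_sum_of_subset_of_nonneg hsub (fun j _ _ => by positivity)
    _ ≤ ∑ j ∈ Ico (m + 1) L, S * 4 ^ K * (1 / 2) ^ j := by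
        apply Finset.sum_le_sum
        intro j hj
        rw [Finset.mem_Ico] at hj
        rw [div_eq_mul_inv, ← inv_pow, one_div]
        exact mul_le_mul_of_nonneg_right (hall j hj.2) (by positivity)
    _ = S * 4 ^ K * ∑ j ∈ Ico (m + 1) (m + 1 + (L - (m + 1))), (1 / 2 : ℝ) ^ j := by
        rw [Finset.mul_sum, show m + 1 + (L - (m + 1)) = L by omega]
    _ ≤ S * 4 ^ K * (1 / 2) ^ m := by
        rw [T_geom]
        apply mul_le_mul_of_nonneg_left _ (by positivity)
        have : (0:ℝ) ≤ (1 / 2) ^ (m + (L - (m + 1))) := by positivity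
        linarith
    _ ≤ S * 4 ^ K * (1 / 2) ^ (2 * K + n0) := by
        apply mul_le_mul_of_nonneg_left _ (by positivity)
        exact pow_le_pow_of_le_one (by norm_num) (by norm_num) hKr
    _ = S * (1 / 2) ^ n0 := by
        have h4 : (4 : ℝ) ^ K * (1 / 2) ^ (2 * K) = 1 := by
          rw [pow_mul, ← mul_pow]
          norm_num
        rw [pow_add]
        calc S * 4 ^ K * ((1 / 2) ^ (2 * K) * (1 / 2) ^ n0)
            = S * (4 ^ K * (1 / 2) ^ (2 * K)) * (1 / 2) ^ n0 := by ring
          _ = S * (1 / 2) ^ n0 := by rw [h4, mul_one]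

end Pool.Agent.H160R2.SA
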