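import Pool.Agent.H160R2.SA.SolU
import Pool.Agent.H160R2.SA.TailU
import Pool.Agent.H160R2.SA.Ode
import Pool.Agent.H160R2.NE.Lin

/-! Task SA-M: the eigenvalues of the Pascal matrix, uniformly. -/

set_option autoImplicit false

namespace Pool.Agent.H160R2.SA
open Finset MeasureTheory
open Pool.Agent.H160R2.OA Pool.Agent.H160R2.HL Pool.Agent.H160R2.NE

theorem M_half (L : ℕ) (hL : 4 ≤ L) : ((1 : ℝ) / 2) ^ (L / 4) ≤ 98 / (L : ℝ) ^ 2 := by
  set n := L / 4 with hn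
  have h1 : L ≤ 7 * n := by omega
  have h2 : (L : ℝ) ≤ 7 * n := by exact_mod_cast h1
  have h3 : ∀ m : ℕ, m ^ 2 ≤ 2 * 2 ^ m := by
    intro m
    rcases Nat.lt_or_ge m 4 with h | h
    · interval_cases m <;> norm_num
    · induction m, h using Nat.le_induction with
      | base => norm_num
      | succ m hm ih =>
        have : (m + 1) ^ 2 ≤ 2 * m ^ 2 := by nlinarith
        calc (m + 1) ^ 2 ≤ 2 * m ^ 2 := this
          _ ≤ 2 * (2 * 2 ^ m) := by omega
          _ = 2 * 2 ^ (m + 1) := by ring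
  have h4 : (n : ℝ) ^ 2 ≤ 2 * 2 ^ n := by exact_mod_cast h3 n
  have hL0 : (0 : ℝ) < L := by exact_mod_cast (by omega : 0 < L)
  rw [one_div, inv_pow, le_div_iff₀ (by positivity), inv_mul_le_iff₀ (by positivity)]
  nlinarith

theorem M_F : ∃ c : ℝ, 0 < c ∧ c ≤ 1 / 24 ∧ ∃ C : ℝ, 0 < C ∧ ∃ L0 : ℕ, ∀ L : ℕ, L0 ≤ L →
    ∀ y : ℝ, y ^ 2 ≤ c * Real.log L → IsEv L (√3 * y) →
    |F L (√3 * y) - 2 / √3 * Real.exp (Real.pi * y / 3)| ≤
      C * Real.exp (-(13 / 8) * Real.log L) := by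
  obtain ⟨A, hA, hS⟩ := sol_bdd_u
  obtain ⟨C, hC, hO⟩ := F_ode
  have hlog : ∀ᶠ L : ℕ in Filter.atTop, ‖Real.log (L : ℝ)‖ ≤ 1 / 100 * ‖(L : ℝ)‖ :=
    tendsto_natCast_atTop_atTop.eventually (Real.isLittleO_log_id_atTop.bound
      (by norm_num : (0 : ℝ) < 1 / 100))
  obtain ⟨L1, hL1⟩ := Filter.eventually_atTop.1 hlog
  have hA0 : 0 < A := by linarith
  refine ⟨1 / (24 * A), by positivity, ?_, Real.exp (2 * A) * (C * Real.exp 2 + 98),
    by positivity, max L1 3000, ?_⟩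
  · exact one_div_le_one_div_of_le (by norm_num) (by linarith)
  intro L hL y hy hev
  have hLL1 : L1 ≤ L := (le_max_left _ _).trans hL
  have hL3 : 3000 ≤ L := (le_max_right _ _).trans hL
  have hLr : (3000 : ℝ) ≤ L := by exact_mod_cast hL3
  have hl := hL1 L hLL1
  rw [Real.norm_eq_abs, Real.norm_eq_abs, abs_of_nonneg (by linarith : (0 : ℝ) ≤ L)] at hl
  set ℓ := Real.log L with hℓ
  have hLe : (L : ℝ) = Real.exp ℓ := (Real.exp_log (by linarith)).symm
  have hℓ0 : 0 ≤ ℓ := Real.log_nonneg (by linarith)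
  rw [abs_of_nonneg hℓ0] at hl
  have hs3 : √3 ^ 2 = 3 := Real.sq_sqrt (by norm_num)
  have hs30 : (0 : ℝ) < √3 := by positivity
  have hs32 : √3 ≤ 2 := by nlinarith
  have hyA : 6 * A * y ^ 2 ≤ ℓ / 4 := by
    have := mul_le_mul_of_nonneg_left hy (by positivity : 0 ≤ 6 * A)
    have e : 6 * A * (1 / (24 * A) * ℓ) = ℓ / 4 := by field_simp; ring
    linarith
  have hy24 : y ^ 2 ≤ ℓ / 24 := by
    have : 6 * 1 * y ^ 2 ≤ 6 * A * y ^ 2 := by gcongr
    linarith
  have hyabs : |y| ^ 2 = y ^ 2 := sq_abs y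
  set E := √3 * |y| with hE
  have hE0 : 0 ≤ E := by positivity
  have hEsq : E ^ 2 = 3 * y ^ 2 := by rw [hE, mul_pow, hs3, hyabs]
  have he : |√3 * y| ≤ E := by rw [abs_mul, abs_of_pos hs30]
  set S := Real.exp (A * (1 + E) ^ 2) with hSdef
  have hS' := hS E hE0 L (√3 * y) he
  have hSle : S ≤ Real.exp (2 * A) * Real.exp (ℓ / 4) := by
    rw [hSdef, ← Real.exp_add]
    apply Real.exp_le_exp.2
    have : (1 + E) ^ 2 ≤ 2 + 6 * y ^ 2 := by nlinarith [sq_nonneg (1 - E)]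
    calc A * (1 + E) ^ 2 ≤ A * (2 + 6 * y ^ 2) := mul_le_mul_of_nonneg_left this hA0.le
      _ = 2 * A + 6 * A * y ^ 2 := by ring
      _ ≤ 2 * A + ℓ / 4 := by linarith
  -- main part
  have hmain := hO L y S (by omega) hS'
  have hy4 : (1 + |y|) * Real.exp (3 * |y|) ≤ Real.exp 2 * Real.exp (ℓ / 8) := by
    have h1 : 1 + |y| ≤ Real.exp |y| := by
      have := Real.add_one_le_exp |y|
      linarith
    calc (1 + |y|) * Real.exp (3 * |y|) ≤ Real.exp |y| * Real.exp (3 * |y|) :=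
          mul_le_mul_of_nonneg_right h1 (Real.exp_pos _).le
      _ = Real.exp (4 * |y|) := by rw [← Real.exp_add]; ring_nf
      _ ≤ Real.exp (2 + ℓ / 8) := by
          apply Real.exp_le_exp.2
          nlinarith [sq_nonneg (3 * |y| - 2)]
      _ = _ := Real.exp_add _ _
  have hm2 : C * S * (1 + |y|) * Real.exp (3 * |y|) / (L : ℝ) ^ 2 ≤
      Real.exp (2 * A) * (C * Real.exp 2) * Real.exp (-(13 / 8) * ℓ) := by
    have hS0 : 0 ≤ S := (Real.exp_pos _).le
    calc C * S * (1 + |y|) * Real.exp (3 * |y|) / (L : ℝ) ^ 2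
        = C * S * ((1 + |y|) * Real.exp (3 * |y|)) / (L : ℝ) ^ 2 := by ring
      _ ≤ C * (Real.exp (2 * A) * Real.exp (ℓ / 4)) * (Real.exp 2 * Real.exp (ℓ / 8)) /
          (L : ℝ) ^ 2 := by
          gcongr
      _ = Real.exp (2 * A) * (C * Real.exp 2) * Real.exp (-(13 / 8) * ℓ) := by
          have e1 : Real.exp (-(13 / 8) * ℓ) * (L : ℝ) ^ 2 =
              Real.exp (ℓ / 4) * Real.exp (ℓ / 8) := by
            rw [hLe, ← Real.exp_nat_mul, ← Real.exp_add, ← Real.exp_add]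
            congr 1
            push_cast
            ring
          rw [div_eq_iff (by positivity)]
          calc C * (Real.exp (2 * A) * Real.exp (ℓ / 4)) * (Real.exp 2 * Real.exp (ℓ / 8))
              = Real.exp (2 * A) * (C * Real.exp 2) * (Real.exp (ℓ / 4) * Real.exp (ℓ / 8)) := by
                ring
            _ = _ := by rw [← e1]; ring
  -- tail
  have hEL : 50 * E + 1000 ≤ (L : ℝ) := by
    have h1 : E ≤ 2 * (1 + y ^ 2) := by
      rw [hE]
      have : |y| ≤ 1 + y ^ 2 := by nlinarith [sq_nonneg (|y| - 1), abs_nonneg y]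
      have h0 := abs_nonneg y
      nlinarith
    nlinarith
  have htail := sol_tail_u E S hE0 L hEL (√3 * y) he hev hS'
  have ht2 : S * (1 / 2) ^ (L / 4) ≤ Real.exp (2 * A) * 98 * Real.exp (-(13 / 8) * ℓ) := by
    have h1 := M_half L (by omega)
    calc S * (1 / 2) ^ (L / 4) ≤ (Real.exp (2 * A) * Real.exp (ℓ / 4)) * (98 / (L : ℝ) ^ 2) :=
          mul_le_mul hSle h1 (by positivity) (by positivity)
      _ = Real.exp (2 * A) * 98 * (Real.exp (ℓ / 4) / (L : ℝ) ^ 2) := by ring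
      _ = Real.exp (2 * A) * 98 * Real.exp (-(7 / 4) * ℓ) := by
          congr 1
          rw [div_eq_iff (by positivity), hLe, ← Real.exp_nat_mul, ← Real.exp_add]
          congr 1
          push_cast
          ring
      _ ≤ _ := by
          apply mul_le_mul_of_nonneg_left _ (by positivity)
          apply Real.exp_le_exp.2
          nlinarith
  -- split
  have hsplit : F L (√3 * y) =
      ∑ j ∈ (range L).filter (fun j : ℕ => (j : ℝ) ≤ 7 / 10 * L), sol L (√3 * y) j / 2 ^ j +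
      ∑ j ∈ (range L).filter (fun j : ℕ => 7 / 10 * (L : ℝ) < (j : ℝ)),
        sol L (√3 * y) j / 2 ^ j := by
    unfold F
    rw [← Finset.sum_filter_add_sum_filter_not (range L) (fun j : ℕ => (j : ℝ) ≤ 7 / 10 * L)]
    simp only [not_le]
  have htabs : |∑ j ∈ (range L).filter (fun j : ℕ => 7 / 10 * (L : ℝ) < (j : ℝ)),
        sol L (√3 * y) j / 2 ^ j| ≤ S * (1 / 2) ^ (L / 4) := by
    refine le_trans (Finset.abs_sum_le_sum_abs _ _) (le_trans (le_of_eq ?_) htail)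
    refine Finset.sum_congr rfl fun j _ => ?_
    rw [abs_div, abs_of_pos (by positivity : (0 : ℝ) < 2 ^ j)]
  rw [hsplit]
  have e : ∀ a b c : ℝ, a + b - c = (a - c) + b := fun a b c => by ring
  rw [e]
  refine (abs_add_le _ _).trans ?_
  have hfin : Real.exp (2 * A) * (C * Real.exp 2 + 98) * Real.exp (-(13 / 8) * ℓ) =
      Real.exp (2 * A) * (C * Real.exp 2) * Real.exp (-(13 / 8) * ℓ) +
      Real.exp (2 * A) * 98 * Real.exp (-(13 / 8) * ℓ) := by ring
  rw [hfin]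
  exact add_le_add (hmain.trans hm2) (htabs.trans ht2)

theorem mu_u : ∃ c : ℝ, 0 < c ∧ ∃ L0 : ℕ, ∀ L : ℕ, L0 ≤ L → ∀ y : ℝ,
    y ^ 2 ≤ c * Real.log L → ∀ v : Fin L → ℝ, v ≠ 0 → (J L).mulVec v = (√3 * y) • v →
    ∀ μ : ℝ, (B L).mulVec v = μ • v → 0 < μ ∧
      |Real.log μ - 2 * Real.pi * y / 3| ≤ 1 / (L : ℝ) := by
  obtain ⟨c, hc, hc24, C, hC, L0, h0⟩ := M_F
  have hK : Filter.Tendsto (fun L : ℕ => 7 / 12 * Real.log (L : ℝ)) Filter.atTop Filter.atTop :=
    (Real.tendsto_log_atTop.comp tendsto_natCast_atTop_atTop).const_mul_atTop (by norm_num)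
  obtain ⟨L1, hL1⟩ := Filter.eventually_atTop.1
    (hK.eventually_ge_atTop (Real.log (4 * C * Real.exp 1)))
  refine ⟨c, hc, max L0 (max L1 1), fun L hL y hy v hv0 hv μ hμ => ?_⟩
  have hLL0 : L0 ≤ L := (le_max_left _ _).trans hL
  have hLL1 : L1 ≤ L := (le_max_left _ _).trans ((le_max_right _ _).trans hL)
  have hL1' : 1 ≤ L := (le_max_right _ _).trans ((le_max_right _ _).trans hL)
  have hLpos : (0 : ℝ) < L := by exact_mod_cast hL1'
  have hLone : (1 : ℝ) ≤ L := by exact_mod_cast hL1'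
  obtain ⟨-, -, hev, μ', hμ', hBv, hF⟩ := ev_B L hL1' (√3 * y) v hv0 hv
  have hμμ : μ = μ' := by
    obtain ⟨i, hi⟩ := Function.ne_iff.1 hv0
    have h4 : μ • v = μ' • v := hμ.symm.trans hBv
    have h5 := congrFun h4 i
    simp only [Pi.smul_apply, smul_eq_mul] at h5
    exact mul_right_cancel₀ hi h5
  subst hμμ
  refine ⟨hμ', ?_⟩
  have hneg : -(√3 * y) = √3 * (-y) := by ring
  rw [hneg] at hev hF
  have f1 := h0 L hLL0 y hy ⟨v, hv0, hv⟩
  have f2 := h0 L hLL0 (-y) (by rwa [neg_sq]) hev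
  have hpi := Real.pi_pos
  have hpi4 := Real.pi_le_four
  set ℓ := Real.log L with hℓ
  have hLe : (L : ℝ) = Real.exp ℓ := (Real.exp_log hLpos).symm
  have hℓ0 : 0 ≤ ℓ := Real.log_nonneg hLone
  have hy24 : y ^ 2 ≤ ℓ / 24 := by nlinarith
  have hyabs : |y| ^ 2 = y ^ 2 := sq_abs y
  have hyy : Real.pi * |y| / 3 ≤ 1 + ℓ / 24 := by
    have h1 : Real.pi * |y| ≤ 4 * |y| := mul_le_mul_of_nonneg_right hpi4 (abs_nonneg y)
    nlinarith [sq_nonneg (3 * |y| - 2)]
  set η : ℝ := C * Real.exp (-(13 / 8) * ℓ) with hη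
  set d : ℝ := Real.exp (-(1 + ℓ / 24)) with hd
  have hd0 : 0 < d := Real.exp_pos _
  have h3 : (0 : ℝ) < √3 := by positivity
  have hs3 : √3 ^ 2 = 3 := Real.sq_sqrt (by norm_num)
  have hs32 : √3 ≤ 2 := by nlinarith
  have h23 : 1 ≤ 2 / √3 := by rw [le_div_iff₀ h3]; linarith
  have g : ∀ z : ℝ, |z| = |y| → d ≤ 2 / √3 * Real.exp (Real.pi * z / 3) := by
    intro z hz
    have h5 : d ≤ Real.exp (Real.pi * z / 3) := by
      rw [hd]
      apply Real.exp_le_exp.2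
      have : -|z| ≤ z := neg_abs_le z
      rw [hz] at this
      nlinarith
    have h6 : 0 < Real.exp (Real.pi * z / 3) := Real.exp_pos _
    nlinarith
  have g1 := g y rfl
  have g2 := g (-y) (abs_neg y)
  -- the size of the error
  have hkey : 4 * η ≤ d * (1 / (L : ℝ)) := by
    have h5 := hL1 L hLL1
    rw [← hℓ] at h5
    have h6 : 4 * C * Real.exp 1 ≤ Real.exp (7 / 12 * ℓ) := by
      rw [← Real.log_le_iff_le_exp (by positivity)]
      exact h5
    have h7 : d * (1 / (L : ℝ)) = Real.exp (7 / 12 * ℓ) * Real.exp (-(13 / 8) * ℓ - 1) := by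
      rw [hd, hLe, one_div, ← Real.exp_neg, ← Real.exp_add, ← Real.exp_add]
      congr 1
      ring
    have h8 : 4 * η = 4 * C * Real.exp 1 * Real.exp (-(13 / 8) * ℓ - 1) := by
      rw [hη, mul_assoc (4 * C), ← Real.exp_add]
      have : 1 + (-(13 / 8) * ℓ - 1) = -(13 / 8) * ℓ := by ring
      rw [this]; ring
    rw [h7, h8]
    exact mul_le_mul_of_nonneg_right h6 (Real.exp_pos _).le
  have hinv : 1 / (L : ℝ) ≤ 1 := by rw [div_le_one hLpos]; exact hLone
  have hη2 : η ≤ d / 2 := by nlinarith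
  obtain ⟨k1, k2⟩ := M_log hd0 g1 hη2 f1
  obtain ⟨k3, k4⟩ := M_log hd0 g2 hη2 f2
  have h6 : 2 * η / d ≤ 1 / (L : ℝ) / 2 := by
    rw [div_le_iff₀ hd0]
    linarith
  have h7 : Real.log (F L (√3 * y)) = Real.log μ + Real.log (F L (√3 * (-y))) := by
    rw [hF, Real.log_mul hμ'.ne' k3.ne']
  have h8 : ∀ z : ℝ, Real.log (2 / √3 * Real.exp (Real.pi * z / 3)) =
      Real.log (2 / √3) + Real.pi * z / 3 := by
    intro z
    rw [Real.log_mul (by positivity) (Real.exp_pos _).ne', Real.log_exp]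
  rw [h8] at k2 k4
  have k2' := abs_le.1 k2
  have k4' := abs_le.1 k4
  rw [abs_le]
  constructor <;> linarith

end Pool.Agent.H160R2.SA
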