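import Pool.Agent.H160R2.OA.SolBdd

/-!
# Task SA-S: explicit bound of the solutions `sol L e j` for `j ≤ 0.7 L`
-/

set_option autoImplicit false

namespace Pool.Agent.H160R2.SA
open Finset
open Pool.Agent.H160R2.OA

/-- one step of the bound of the first solutions -/
theorem S_init_step {E : ℝ} (hE : 0 ≤ E) {n : ℕ} {C : ℝ} (hC1 : 1 ≤ C)
    (hC : ∀ L : ℕ, ∀ e : ℝ, |e| ≤ E → ∀ j : ℕ, j ≤ n → (j : ℝ) ≤ 7 / 10 * L →
      |sol L e j| ≤ C) :
    ∀ L : ℕ, ∀ e : ℝ, |e| ≤ E → ∀ j : ℕ, j ≤ n + 1 → (j : ℝ) ≤ 7 / 10 * L →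
      |sol L e j| ≤ C * (2 * E + 6 * n + 3) := by
  intro L e he j hj hjL
  have hsplit : C * (2 * E + 6 * n + 3) = C * (2 * (E + 2 * n + 1 + n)) + C := by ring
  rw [hsplit]
  have hpos : 0 ≤ C * (2 * (E + 2 * n + 1 + n)) := by positivity
  rcases Nat.lt_or_ge j (n + 1) with h | h
  · have := hC L e he j (by omega) hjL
    linarith
  · have hjn : j = n + 1 := by omega
    subst hjn
    have hn1 : ((n : ℕ) : ℝ) ≤ 7 / 10 * L := by push_cast at hjL ⊢; linarith
    rcases n with _ | n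
    · have hb := SB.b_lower hjL
      have ha := SB.a_abs (L := L) (j := 0) (by simpa using hjL)
      have hb' : 0 < b L 1 := lt_of_lt_of_le (by norm_num) hb
      have : sol L e (0 + 1) = (e - a L 0) / b L 1 := rfl
      rw [this, abs_div, abs_of_pos hb', div_le_iff₀ hb']
      have h1 : |e - a L 0| ≤ E + 1 := by
        refine (abs_sub _ _).trans ?_
        simp at ha
        linarith
      push_cast at hb ⊢
      simp only [mul_zero, add_zero] at hb ⊢
      have h2 : (1 : ℝ) / 2 ≤ b L 1 := by simpa using hb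
      nlinarith [mul_nonneg (sub_nonneg.2 hC1) hE,
        mul_nonneg (mul_nonneg (sub_nonneg.2 hC1) hE) hb'.le]
    · have hb := SB.b_lower hjL
      have hrec := SB.sol_rec e (L := L) (j := n) hjL
      have hb' : 0 < b L (n + 2) := lt_of_lt_of_le (by positivity) hb
      have ha := SB.a_abs (L := L) (j := n + 1) hjL
      have h1 := hC L e he (n + 1) le_rfl hn1
      have h2 := hC L e he n (by omega) (by push_cast at hn1; linarith)
      have hbn := SB.b_upper L (n + 1)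
      have hbn' := SB.b_lower hn1
      have hbn0 : 0 ≤ b L (n + 1) := le_trans (by positivity) hbn'
      have h3 : b L (n + 2) * |sol L e (n + 2)| ≤
          (E + (2 * ((n + 1 : ℕ) : ℝ) + 1)) * C + ((n + 1 : ℕ) : ℝ) * C := by
        have : b L (n + 2) * |sol L e (n + 2)| = |b L (n + 2) * sol L e (n + 2)| := by
          rw [abs_mul, abs_of_pos hb']
        rw [this, hrec]
        refine (abs_sub _ _).trans ?_
        rw [abs_mul, abs_mul, abs_of_nonneg hbn0]
        have h4 : |e - a L (n + 1)| ≤ E + (2 * ((n + 1 : ℕ) : ℝ) + 1) :=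
          (abs_sub _ _).trans (by linarith)
        have := abs_nonneg (sol L e (n + 1))
        have := abs_nonneg (sol L e n)
        gcongr
      have h5 : (1 : ℝ) ≤ b L (n + 2) := by
        have : (0 : ℝ) ≤ n := Nat.cast_nonneg n
        push_cast at hb
        linarith
      have h6 : |sol L e (n + 2)| ≤ b L (n + 2) * |sol L e (n + 2)| := by
        nlinarith [abs_nonneg (sol L e (n + 2))]
      have h7 := h6.trans h3
      have h9 : (0 : ℝ) ≤ n := Nat.cast_nonneg n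
      show |sol L e (n + 2)| ≤ _
      push_cast at h7 ⊢
      nlinarith [mul_nonneg (by linarith : (0:ℝ) ≤ C) hE, mul_nonneg (by linarith : (0:ℝ) ≤ C) h9]

/-- the first solutions, explicit bound -/
theorem S_init {E : ℝ} (hE : 0 ≤ E) (m : ℕ) : ∀ n ≤ m, ∀ L : ℕ, ∀ e : ℝ, |e| ≤ E →
    ∀ j : ℕ, j ≤ n → (j : ℝ) ≤ 7 / 10 * L → |sol L e j| ≤ (2 * E + 6 * m + 3) ^ n := by
  intro n
  induction n with
  | zero =>
    intro _ L e he j hj _
    have : j = 0 := by omega
    subst this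
    simp [sol]
  | succ n ih =>
    intro hn L e he j hj hjL
    have hm0 : (0 : ℝ) ≤ m := Nat.cast_nonneg m
    have hbase : 1 ≤ 2 * E + 6 * (m : ℝ) + 3 := by linarith
    have hnm : (n : ℝ) ≤ m := by exact_mod_cast (by omega : n ≤ m)
    have h1 := S_init_step hE (n := n) (one_le_pow₀ hbase (n := n)) (ih (by omega)) L e he j hj hjL
    refine h1.trans ?_
    rw [pow_succ]
    apply mul_le_mul_of_nonneg_left _ (by positivity)
    linarith

theorem S_exp_ge (x : ℝ) : x ≤ Real.exp x := by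
  have := Real.add_one_le_exp x
  linarith

theorem sol_bdd_u : ∃ A : ℝ, 1 ≤ A ∧ ∀ E : ℝ, 0 ≤ E → ∀ L : ℕ, ∀ e : ℝ, |e| ≤ E →
    ∀ j : ℕ, (j : ℝ) ≤ 7 / 10 * L → |sol L e j| ≤ Real.exp (A * (1 + E) ^ 2) := by
  refine ⟨500, by norm_num, fun E hE L e he j hj => ?_⟩
  obtain ⟨j0, hj0, hj0u⟩ : ∃ j0 : ℕ, (7 + 5 * E) / 3 ≤ j0 ∧ (j0 : ℝ) ≤ (7 + 5 * E) / 3 + 1 :=
    ⟨⌈(7 + 5 * E) / 3⌉₊, Nat.le_ceil _, (Nat.ceil_lt_add_one (by positivity)).le⟩
  obtain ⟨C0, hC0d⟩ : ∃ C0 : ℝ, C0 = (2 * E + 6 * ((j0 + 1 : ℕ) : ℝ) + 3) ^ (j0 + 1) := ⟨_, rfl⟩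
  have hC0 : ∀ L : ℕ, ∀ e : ℝ, |e| ≤ E → ∀ j : ℕ, j ≤ j0 + 1 → (j : ℝ) ≤ 7 / 10 * L →
      |sol L e j| ≤ C0 := by
    intro L e he j hj hjL
    rw [hC0d]
    exact S_init hE (j0 + 1) (j0 + 1) le_rfl L e he j hj hjL
  have hj0n : (0 : ℝ) ≤ j0 := Nat.cast_nonneg j0
  have hC00 : 0 ≤ C0 := by rw [hC0d]; positivity
  set K := 10 * (6 + E) with hKdef
  have hK : 0 ≤ K := by positivity
  set M : ℝ := ((j0 : ℝ) + (j0 + 1) + (2 * j0 + 1 + E)) * C0 ^ 2 with hMdef
  have hM : 0 ≤ M := by positivity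
  set C1 := 5 * (M * Real.exp (2 * K)) with hC1
  have hC1' : 0 ≤ C1 := by positivity
  -- the estimate of the constant
  have hfinal : C0 + (C1 + 1) ≤ Real.exp (500 * (1 + E) ^ 2) := by
    obtain ⟨s, hs⟩ : ∃ s : ℝ, s = 1 + E := ⟨_, rfl⟩
    have hs1 : 1 ≤ s := by linarith
    have hss : s ≤ s ^ 2 := by nlinarith
    have hEs : E = s - 1 := by linarith
    have hC0e : C0 ≤ Real.exp (175 * s ^ 2) := by
      have h1 : 2 * E + 6 * ((j0 + 1 : ℕ) : ℝ) + 3 ≤ Real.exp (35 * s) := by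
        refine le_trans ?_ (S_exp_ge (35 * s))
        push_cast
        linarith
      have h2 : 0 ≤ 2 * E + 6 * ((j0 + 1 : ℕ) : ℝ) + 3 := by positivity
      rw [hC0d]
      refine (pow_le_pow_left₀ h2 h1 _).trans ?_
      rw [← Real.exp_nat_mul]
      apply Real.exp_le_exp.2
      push_cast
      have h3 : (j0 : ℝ) + 1 ≤ 5 * s := by linarith
      calc ((j0 : ℝ) + 1) * (35 * s) ≤ (5 * s) * (35 * s) :=
            mul_le_mul_of_nonneg_right h3 (by positivity)
        _ = 175 * s ^ 2 := by ring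
    have hMe : M ≤ Real.exp (368 * s ^ 2) := by
      have h1 : (j0 : ℝ) + (j0 + 1) + (2 * j0 + 1 + E) ≤ Real.exp (18 * s ^ 2) := by
        refine le_trans ?_ (S_exp_ge (18 * s ^ 2))
        linarith
      have h2 : C0 ^ 2 ≤ Real.exp (350 * s ^ 2) := by
        have := pow_le_pow_left₀ hC00 hC0e 2
        rw [← Real.exp_nat_mul] at this
        refine this.trans (le_of_eq ?_)
        congr 1
        push_cast
        ring
      rw [hMdef]
      refine (mul_le_mul h1 h2 (by positivity) (Real.exp_pos _).le).trans ?_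
      rw [← Real.exp_add]
      apply Real.exp_le_exp.2
      linarith
    have hC1e : C1 ≤ Real.exp (493 * s ^ 2) := by
      have h1 : Real.exp (2 * K) ≤ Real.exp (120 * s ^ 2) := by
        apply Real.exp_le_exp.2
        rw [hKdef]
        linarith
      have h2 : (5 : ℝ) ≤ Real.exp (5 * s ^ 2) := by
        refine le_trans ?_ (S_exp_ge (5 * s ^ 2))
        linarith
      rw [hC1]
      refine (mul_le_mul h2 (mul_le_mul hMe h1 (Real.exp_pos _).le (Real.exp_pos _).le)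
        (by positivity) (Real.exp_pos _).le).trans ?_
      rw [← Real.exp_add, ← Real.exp_add]
      apply Real.exp_le_exp.2
      linarith
    have h3 : C0 ≤ Real.exp (493 * s ^ 2) :=
      hC0e.trans (Real.exp_le_exp.2 (by nlinarith))
    have h4 : (1 : ℝ) ≤ Real.exp (493 * s ^ 2) := Real.one_le_exp (by positivity)
    have h5 : (3 : ℝ) ≤ Real.exp (3 * s ^ 2) := by
      refine le_trans ?_ (S_exp_ge (3 * s ^ 2))
      linarith
    rw [← hs]
    calc C0 + (C1 + 1) ≤ 3 * Real.exp (493 * s ^ 2) := by linarith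
      _ ≤ Real.exp (3 * s ^ 2) * Real.exp (493 * s ^ 2) :=
          mul_le_mul_of_nonneg_right h5 (Real.exp_pos _).le
      _ = Real.exp (496 * s ^ 2) := by rw [← Real.exp_add]; congr 1; ring
      _ ≤ Real.exp (500 * s ^ 2) := Real.exp_le_exp.2 (by nlinarith)
  refine le_trans ?_ hfinal
  rcases Nat.lt_or_ge j (j0 + 2) with h | h
  · have := hC0 L e he j (by omega) hj
    linarith
  · obtain ⟨k, rfl⟩ : ∃ k, j = j0 + k + 1 := ⟨j - j0 - 1, by omega⟩
    have hj0L : ((j0 + 1 : ℕ) : ℝ) ≤ 7 / 10 * L := by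
      push_cast at hj ⊢
      have : (0 : ℝ) ≤ k := Nat.cast_nonneg k
      linarith
    have hj0L' : ((j0 : ℕ) : ℝ) ≤ 7 / 10 * L := by push_cast at hj0L ⊢; linarith
    have hM0 : SB.X L e j0 ≤ M := by
      unfold SB.X
      have h1 := hC0 L e he j0 (by omega) hj0L'
      have h2 := hC0 L e he (j0 + 1) le_rfl hj0L
      have h3 := SB.b_upper L j0
      have h4 := SB.b_upper L (j0 + 1)
      have h5 := SB.a_abs hj0L
      push_cast at h4
      have h6 : |a L j0 - e| ≤ 2 * j0 + 1 + E := (abs_sub _ _).trans (by linarith)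
      have h7 : sol L e j0 ^ 2 ≤ C0 ^ 2 := by
        rw [← sq_abs]; gcongr
      have h8 : sol L e (j0 + 1) ^ 2 ≤ C0 ^ 2 := by
        rw [← sq_abs]; gcongr
      have h9 : (a L j0 - e) * sol L e j0 * sol L e (j0 + 1) ≤ (2 * j0 + 1 + E) * C0 ^ 2 := by
        refine (le_abs_self _).trans ?_
        rw [abs_mul, abs_mul, sq, ← mul_assoc]
        have := abs_nonneg (a L j0 - e)
        gcongr
      have h10 : b L j0 * sol L e j0 ^ 2 ≤ j0 * C0 ^ 2 := by
        have := sq_nonneg (sol L e j0)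
        calc _ ≤ (j0 : ℝ) * sol L e j0 ^ 2 := by gcongr
          _ ≤ _ := by gcongr
      have h11 : b L (j0 + 1) * sol L e (j0 + 1) ^ 2 ≤ (j0 + 1) * C0 ^ 2 := by
        have := sq_nonneg (sol L e (j0 + 1))
        calc _ ≤ ((j0 : ℝ) + 1) * sol L e (j0 + 1) ^ 2 := by gcongr
          _ ≤ _ := by gcongr
      rw [hMdef]
      linarith
    have hg := SB.X_grow hE he hj0 hM hM0 k hj
    have hjk : (7 + 5 * E) / 3 ≤ ((j0 + k : ℕ) : ℝ) := by
      push_cast
      have : (0 : ℝ) ≤ k := Nat.cast_nonneg k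
      linarith
    have hpos := SB.X_pos he (L := L) (j := j0 + k) hj hjk
    have hexp : Real.exp (K * (1 - 1 / (((j0 + k : ℕ) : ℝ) + 1)) +
      K * ((((j0 + k : ℕ) : ℝ) + 1) ^ 2 * (1 / (L : ℝ) ^ 2))) ≤ Real.exp (2 * K) := by
      apply Real.exp_le_exp.2
      have h1 := SB.u_bound (Nat.cast_nonneg (j0 + k + 1)) hj
      have h2 : (0 : ℝ) ≤ 1 / (((j0 + k : ℕ) : ℝ) + 1) := by positivity
      push_cast at h1 h2 ⊢
      have h3 : K * (1 - 1 / ((j0 : ℝ) + k + 1)) ≤ K * 1 :=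
        mul_le_mul_of_nonneg_left (by linarith) hK
      have h4 : K * (((j0 : ℝ) + k + 1) ^ 2 * (1 / (L : ℝ) ^ 2)) ≤ K * 1 :=
        mul_le_mul_of_nonneg_left (by linarith) hK
      linarith
    have hX : SB.X L e (j0 + k) ≤ M * Real.exp (2 * K) :=
      hg.trans (mul_le_mul_of_nonneg_left hexp hM)
    have hsq : sol L e (j0 + k + 1) ^ 2 ≤ C1 := by
      have hx : (0 : ℝ) ≤ ((j0 + k : ℕ) : ℝ) := Nat.cast_nonneg _
      have h1 := sq_nonneg (sol L e (j0 + k))
      have h2 := sq_nonneg (sol L e (j0 + k + 1))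
      nlinarith [mul_nonneg hx h1, mul_nonneg hx h2]
    have habs : |sol L e (j0 + k + 1)| ≤ C1 + 1 := by
      nlinarith [sq_abs (sol L e (j0 + k + 1)), abs_nonneg (sol L e (j0 + k + 1)),
        sq_nonneg (|sol L e (j0 + k + 1)| - 1)]
    linarith

end Pool.Agent.H160R2.SA
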