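import Pool.Agent.H160R2.NE.Lin

/-! Blueprint (statements only): sharp asymptotics of the determinants, errors O(1) in the
logarithm. -/

set_option autoImplicit false

namespace Pool.Agent.H160R2.SA
open Finset MeasureTheory
open Pool.Agent.H160R2.OA Pool.Agent.H160R2.HL Pool.Agent.H160R2.NE

/-! ### Task S (SolU.lean) -/

theorem sol_bdd_u : ∃ A : ℝ, 1 ≤ A ∧ ∀ E : ℝ, 0 ≤ E → ∀ L : ℕ, ∀ e : ℝ, |e| ≤ E →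
    ∀ j : ℕ, (j : ℝ) ≤ 7 / 10 * L → |sol L e j| ≤ Real.exp (A * (1 + E) ^ 2) := sorry

/-! ### Task T (TailU.lean) -/

theorem sol_tail_u (E S : ℝ) (hE : 0 ≤ E) (L : ℕ) (hL : 50 * E + 1000 ≤ (L : ℝ)) (e : ℝ)
    (he : |e| ≤ E) (hev : IsEv L e)
    (hS : ∀ j : ℕ, (j : ℝ) ≤ 7 / 10 * L → |sol L e j| ≤ S) :
    ∑ j ∈ (range L).filter (fun j : ℕ => 7 / 10 * (L : ℝ) < (j : ℝ)), |sol L e j| / 2 ^ j ≤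
      S * (1 / 2) ^ (L / 4) := sorry

/-! ### Task O (Ode.lean) -/

theorem F_ode : ∃ C : ℝ, 0 < C ∧ ∀ (L : ℕ) (y S : ℝ), 10 ≤ L →
    (∀ j : ℕ, (j : ℝ) ≤ 7 / 10 * L → |sol L (√3 * y) j| ≤ S) →
    |∑ j ∈ (range L).filter (fun j : ℕ => (j : ℝ) ≤ 7 / 10 * L), sol L (√3 * y) j / 2 ^ j -
      2 / √3 * Real.exp (Real.pi * y / 3)| ≤ C * S * (1 + |y|) * Real.exp (3 * |y|) / (L : ℝ) ^ 2 :=
  sorry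

/-! ### Task M (MuU.lean), uses S T O -/

theorem mu_u : ∃ c : ℝ, 0 < c ∧ ∃ L0 : ℕ, ∀ L : ℕ, L0 ≤ L → ∀ y : ℝ,
    y ^ 2 ≤ c * Real.log L → ∀ v : Fin L → ℝ, v ≠ 0 → (J L).mulVec v = (√3 * y) • v →
    ∀ μ : ℝ, (B L).mulVec v = μ • v → 0 < μ ∧ |Real.log μ - 2 * Real.pi * y / 3| ≤ 1 / (L : ℝ) :=
  sorry

/-! ### Task W (WkbU.lean) -/

theorem wkb_u : ∃ C : ℝ, 0 < C ∧ ∃ L0 : ℕ, ∀ L : ℕ, L0 ≤ L → ∀ Y : ℝ, 0 ≤ Y →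
    (1 + Y) ^ 4 ≤ (L : ℝ) → ∃ m n : ℕ, 1 ≤ m ∧ 1 ≤ n ∧ m + n < L ∧ ∃ S : Finset ℝ,
      (∀ y ∈ S, -Y ≤ y ∧ y ≤ Y ∧ tr L m (√3 * y) (n + 1) = 0) ∧
      2 * Y / Real.pi * Real.log L - C * (1 + Y) ^ 2 ≤ (S.card : ℝ) := sorry

/-! ### Task N (DensU.lean), uses M W -/

theorem dens_u : ∃ C c : ℝ, 0 < C ∧ 0 < c ∧ ∃ L0 : ℕ, ∀ L : ℕ, L0 ≤ L →
    ∀ (hJ : (J L).IsHermitian) (μ : Fin L → ℝ), IsMu L hJ μ → ∀ t : ℝ, 0 ≤ t →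
      t ^ 2 ≤ c * Real.log L → 3 / Real.pi ^ 2 * t * Real.log L - C * (1 + t) ^ 2 ≤
        ((univ.filter (fun i => |Real.log (μ i)| ≤ t)).card : ℝ) := sorry

/-! ### Task Z (SumU.lean), uses N -/

theorem sum_u (G h : ℝ → ℝ) (K : ℝ) (hh : Continuous h) (h0 : ∀ x, 0 ≤ x → 0 ≤ h x)
    (hK : ∀ x, 0 ≤ x → h x ≤ K * Real.exp (-x)) (hG : ∀ x, HasDerivAt G (-h x) x)
    (heven : ∀ x, G (-x) = G x) (hlim : Filter.Tendsto G Filter.atTop (nhds 0)) :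
    ∃ C : ℝ, ∀ L : ℕ, 1 ≤ L → ∀ (hJ : (J L).IsHermitian) (μ : Fin L → ℝ), IsMu L hJ μ →
      3 / (2 * Real.pi ^ 2) * (∫ x, G x) * Real.log L - C ≤ ∑ i, G (Real.log (μ i)) := sorry

/-! ### Task F (Final.lean), uses Z -/

theorem det_sharp (θ : ℝ) (h1 : Real.pi / 3 ≤ θ) (h2 : θ ≤ 2 * Real.pi / 3) :
    ∃ c C : ℝ, 0 < c ∧ 0 < C ∧ ∀ L : ℕ, 1 ≤ L →
      c * (L : ℝ) ^ (-(ex θ)) * ‖(wB L (Complex.exp ((Real.pi / 3 : ℝ) * Complex.I))).det‖ ≤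
        ‖(wB L (Complex.exp (θ * Complex.I))).det‖ ∧
      ‖(wB L (Complex.exp (θ * Complex.I))).det‖ ≤
        C * (L : ℝ) ^ (-(ex θ)) * ‖(wB L (Complex.exp ((Real.pi / 3 : ℝ) * Complex.I))).det‖ :=
  sorry

end Pool.Agent.H160R2.SA
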