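import Pool.Agent.H160R2.SA.DensU
import Pool.Agent.H160R2.NE.Lin

/-!
# Lower bound for even sums over the spectrum (task SA-Z, helper157)
-/

set_option autoImplicit false

namespace Pool.Agent.H160R2.SA
open Finset MeasureTheory
open Pool.Agent.H160R2.OA Pool.Agent.H160R2.HL Pool.Agent.H160R2.NE

section Z

variable {G h : ℝ → ℝ} {K : ℝ}

theorem Z_antitone (h0 : ∀ x, 0 ≤ x → 0 ≤ h x) (hG : ∀ x, HasDerivAt G (-h x) x) :
    AntitoneOn G (Set.Ici 0) := by
  refine antitoneOn_of_deriv_nonpos (convex_Ici 0)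
    (fun x _ => (hG x).continuousAt.continuousWithinAt)
    (fun x _ => (hG x).differentiableAt.differentiableWithinAt) ?_
  intro x hx
  rw [interior_Ici] at hx
  rw [(hG x).deriv]
  linarith [h0 x (le_of_lt hx)]

theorem Z_nonneg' (h0 : ∀ x, 0 ≤ x → 0 ≤ h x) (hG : ∀ x, HasDerivAt G (-h x) x)
    (hlim : Filter.Tendsto G Filter.atTop (nhds 0)) (x : ℝ) (hx : 0 ≤ x) : 0 ≤ G x := by
  refine le_of_tendsto hlim ?_
  filter_upwards [Filter.eventually_ge_atTop x] with y hy
  exact Z_antitone h0 hG hx (hx.trans hy) hy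

theorem Z_even {G : ℝ → ℝ} (heven : ∀ x, G (-x) = G x) (x : ℝ) : G |x| = G x := by
  rcases abs_choice x with h | h
  · rw [h]
  · rw [h, heven]

theorem Z_nonneg (h0 : ∀ x, 0 ≤ x → 0 ≤ h x) (hG : ∀ x, HasDerivAt G (-h x) x)
    (heven : ∀ x, G (-x) = G x)
    (hlim : Filter.Tendsto G Filter.atTop (nhds 0)) (x : ℝ) : 0 ≤ G x := by
  rw [← Z_even heven]
  exact Z_nonneg' h0 hG hlim _ (abs_nonneg x)

theorem Z_le (_h0 : ∀ x, 0 ≤ x → 0 ≤ h x) (hK : ∀ x, 0 ≤ x → h x ≤ K * Real.exp (-x))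
    (hG : ∀ x, HasDerivAt G (-h x) x)
    (hlim : Filter.Tendsto G Filter.atTop (nhds 0)) (x : ℝ) (hx : 0 ≤ x) :
    G x ≤ K * Real.exp (-x) := by
  have hd : ∀ x : ℝ, HasDerivAt (fun x => K * Real.exp (-x) - G x)
      (-(K * Real.exp (-x) - h x)) x := by
    intro x
    have h1 : HasDerivAt (fun x : ℝ => K * Real.exp (-x)) (K * (Real.exp (-x) * (-1))) x :=
      ((hasDerivAt_neg x).exp).const_mul K
    have h2 := h1.fun_sub (hG x)
    have h3 : -(K * Real.exp (-x) - h x) = K * (Real.exp (-x) * (-1)) - -h x := by ring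
    rw [h3]
    exact h2
  have hl : Filter.Tendsto (fun x => K * Real.exp (-x) - G x) Filter.atTop (nhds 0) := by
    have h1 : Filter.Tendsto (fun x : ℝ => K * Real.exp (-x)) Filter.atTop (nhds (K * 0)) :=
      (Real.tendsto_exp_neg_atTop_nhds_zero).const_mul K
    have h2 := h1.sub hlim
    simpa using h2
  have h5 : 0 ≤ K * Real.exp (-x) - G x := Z_nonneg' (G := fun x => K * Real.exp (-x) - G x)
    (h := fun x => K * Real.exp (-x) - h x) (fun x hx => sub_nonneg.2 (hK x hx)) hd hl x hx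
  linarith

theorem Z_ftc (hh : Continuous h) (hG : ∀ x, HasDerivAt G (-h x) x) (r T : ℝ) :
    ∫ t in r..T, h t = G r - G T := by
  have h1 := intervalIntegral.integral_eq_sub_of_hasDerivAt (a := r) (b := T)
    (f := fun x => -G x) (f' := h) (fun x _ => by simpa using (hG x).fun_neg)
    (hh.intervalIntegrable _ _)
  rw [h1]; ring

/-- one layer -/
theorem Z_layer (hh : Continuous h) (h0 : ∀ x, 0 ≤ x → 0 ≤ h x)
    (hG : ∀ x, HasDerivAt G (-h x) x)
    (heven : ∀ x, G (-x) = G x) (hlim : Filter.Tendsto G Filter.atTop (nhds 0)) (T : ℝ)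
    (hT : 0 ≤ T) (x : ℝ) :
    ∫ t in Set.Ioc 0 T, (Set.Ici |x|).indicator h t ≤ G x := by
  rw [setIntegral_indicator measurableSet_Ici]
  rcases lt_or_ge T |x| with hx | hx
  · have : Set.Ioc 0 T ∩ Set.Ici |x| = ∅ := by
      ext t
      simp only [Set.mem_inter_iff, Set.mem_Ioc, Set.mem_Ici, Set.mem_empty_iff_false, iff_false]
      rintro ⟨⟨_, h2⟩, h3⟩
      linarith
    rw [this, setIntegral_empty]
    exact Z_nonneg h0 hG heven hlim x
  · have hle : ∫ t in Set.Ioc 0 T ∩ Set.Ici |x|, h t ≤ ∫ t in Set.Icc |x| T, h t := by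
      refine setIntegral_mono_set (hh.continuousOn.integrableOn_Icc) ?_ ?_
      · refine (ae_restrict_iff' measurableSet_Icc).2 (Filter.Eventually.of_forall fun t ht => ?_)
        exact h0 t ((abs_nonneg x).trans ht.1)
      · refine Filter.Eventually.of_forall fun t ht => ?_
        exact ⟨ht.2, ht.1.2⟩
    refine hle.trans ?_
    rw [integral_Icc_eq_integral_Ioc, ← intervalIntegral.integral_of_le hx, Z_ftc hh hG,
      Z_even heven]
    linarith [Z_nonneg' h0 hG hlim T hT]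

theorem Z_parts (hh : Continuous h) (hG : ∀ x, HasDerivAt G (-h x) x) (T : ℝ) :
    ∫ t in (0 : ℝ)..T, t * h t = (∫ t in (0 : ℝ)..T, G t) - T * G T := by
  have hGc : Continuous G := continuous_iff_continuousAt.2 fun x => (hG x).continuousAt
  have h1 := intervalIntegral.integral_eq_sub_of_hasDerivAt (a := 0) (b := T)
    (f := fun x => -(x * G x)) (f' := fun x => x * h x - G x) (fun x _ => by
      have h2 := ((hasDerivAt_id' x).fun_mul (hG x)).fun_neg
      have h3 : x * h x - G x = -(1 * G x + x * -h x) := by ring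
      rw [h3]
      exact h2)
    ((by fun_prop : Continuous fun x => x * h x - G x).intervalIntegrable _ _)
  rw [intervalIntegral.integral_sub ((by fun_prop : Continuous fun x => x * h x).intervalIntegrable _ _)
    (hGc.intervalIntegrable _ _)] at h1
  linarith

theorem Z_sq (hh : Continuous h) (hK : ∀ x, 0 ≤ x → h x ≤ K * Real.exp (-x)) (hK0 : 0 ≤ K) (T : ℝ)
    (hT : 0 ≤ T) : ∫ t in (0 : ℝ)..T, (1 + t) ^ 2 * h t ≤ 5 * K := by
  have h1 := intervalIntegral.integral_eq_sub_of_hasDerivAt (a := 0) (b := T)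
    (f := fun x => -(K * ((x ^ 2 + 4 * x + 5) * Real.exp (-x))))
    (f' := fun x => (1 + x) ^ 2 * (K * Real.exp (-x))) (fun x _ => by
      have e1 : HasDerivAt (fun x : ℝ => x ^ 2 + 4 * x + 5) (2 * x + 4) x := by
        have h2 := (((hasDerivAt_id' x).fun_pow 2).fun_add ((hasDerivAt_id' x).const_mul 4)).add_const 5
        have h3 : 2 * x + 4 = (2 : ℕ) * x ^ (2 - 1) * 1 + 4 * 1 := by norm_num
        rw [h3]
        exact h2
      have e2 : HasDerivAt (fun x : ℝ => Real.exp (-x)) (Real.exp (-x) * (-1)) x :=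
        (hasDerivAt_neg x).exp
      have h2 := ((e1.fun_mul e2).const_mul K).fun_neg
      have h3 : (1 + x) ^ 2 * (K * Real.exp (-x)) =
        -(K * ((2 * x + 4) * Real.exp (-x) + (x ^ 2 + 4 * x + 5) * (Real.exp (-x) * -1))) := by ring
      rw [h3]
      exact h2)
    ((by fun_prop : Continuous fun x : ℝ => (1 + x) ^ 2 * (K * Real.exp (-x))).intervalIntegrable _ _)
  have h2 : ∫ t in (0 : ℝ)..T, (1 + t) ^ 2 * h t ≤
      ∫ t in (0 : ℝ)..T, (1 + t) ^ 2 * (K * Real.exp (-t)) := by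
    refine intervalIntegral.integral_mono_on hT
      ((by fun_prop : Continuous fun x : ℝ => (1 + x) ^ 2 * h x).intervalIntegrable _ _)
      ((by fun_prop : Continuous fun x : ℝ => (1 + x) ^ 2 * (K * Real.exp (-x))).intervalIntegrable _ _)
      fun t ht => ?_
    exact mul_le_mul_of_nonneg_left (hK t ht.1) (by positivity)
  refine h2.trans ?_
  rw [h1]
  have h3 : 0 ≤ K * ((T ^ 2 + 4 * T + 5) * Real.exp (-T)) := by positivity
  simp only [neg_zero, Real.exp_zero]
  nlinarith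

theorem Z_int (h0 : ∀ x, 0 ≤ x → 0 ≤ h x) (hK : ∀ x, 0 ≤ x → h x ≤ K * Real.exp (-x))
    (hG : ∀ x, HasDerivAt G (-h x) x) (heven : ∀ x, G (-x) = G x)
    (hlim : Filter.Tendsto G Filter.atTop (nhds 0)) (T : ℝ) (hT : 0 ≤ T) :
    (∫ x, G x) / 2 - K * Real.exp (-T) ≤ ∫ t in (0 : ℝ)..T, G t := by
  have hGc : Continuous G := continuous_iff_continuousAt.2 fun x => (hG x).continuousAt
  have e1 : ∫ x, G x = 2 * ∫ x in Set.Ioi (0 : ℝ), G x := by
    rw [← integral_comp_abs]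
    refine integral_congr_ae (Filter.Eventually.of_forall fun x => ?_)
    exact (Z_even heven x).symm
  have hexp : ∀ c : ℝ, IntegrableOn (fun x : ℝ => K * Real.exp (-x)) (Set.Ioi c) := by
    intro c
    exact (integrableOn_exp_neg_Ioi c).const_mul K
  have hGi : IntegrableOn G (Set.Ioi 0) := by
    refine (hexp 0).mono' hGc.aestronglyMeasurable ?_
    refine (ae_restrict_iff' measurableSet_Ioi).2 (Filter.Eventually.of_forall fun t ht => ?_)
    have ht' : (0 : ℝ) ≤ t := le_of_lt ht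
    rw [Real.norm_eq_abs, abs_of_nonneg (Z_nonneg' h0 hG hlim t ht')]
    exact Z_le h0 hK hG hlim t ht'
  have hGT : IntegrableOn G (Set.Ioi T) := hGi.mono_set (Set.Ioi_subset_Ioi hT)
  have e2 : ∫ x in Set.Ioi (0 : ℝ), G x = (∫ t in (0 : ℝ)..T, G t) + ∫ x in Set.Ioi T, G x := by
    rw [intervalIntegral.integral_interval_add_Ioi hGi hGT]
  have e3 : ∫ x in Set.Ioi T, G x ≤ K * Real.exp (-T) := by
    have : ∫ x in Set.Ioi T, G x ≤ ∫ x in Set.Ioi T, K * Real.exp (-x) := by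
      refine setIntegral_mono_on hGT (hexp T) measurableSet_Ioi fun t ht => ?_
      exact Z_le h0 hK hG hlim t (hT.trans (le_of_lt ht))
    refine this.trans (le_of_eq ?_)
    rw [integral_const_mul, integral_exp_neg_Ioi]
  rw [e1, e2]
  linarith

theorem Z_core (hh : Continuous h) (h0 : ∀ x, 0 ≤ x → 0 ≤ h x)
    (hK : ∀ x, 0 ≤ x → h x ≤ K * Real.exp (-x)) (hG : ∀ x, HasDerivAt G (-h x) x)
    (heven : ∀ x, G (-x) = G x) (hlim : Filter.Tendsto G Filter.atTop (nhds 0))
    {n : ℕ} (x : Fin n → ℝ) (T α Λ C0 : ℝ) (hT : 0 ≤ T) (hα : 0 ≤ α) (hΛ : 0 ≤ Λ) (hC : 0 ≤ C0)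
    (hN : ∀ t, 0 ≤ t → t ≤ T → α * t * Λ - C0 * (1 + t) ^ 2 ≤
      ((univ.filter (fun i => |x i| ≤ t)).card : ℝ)) :
    α / 2 * (∫ y, G y) * Λ - α * Λ * K * ((1 + T) * Real.exp (-T)) - 5 * C0 * K ≤
      ∑ i, G (x i) := by
  have hK0 : 0 ≤ K := by
    have := (h0 0 le_rfl).trans (hK 0 le_rfl)
    simpa using this
  have hint : ∀ i, IntegrableOn ((Set.Ici |x i|).indicator h) (Set.Ioc 0 T) := by
    intro i
    refine IntegrableOn.indicator ?_ measurableSet_Ici
    exact (hh.continuousOn.integrableOn_Icc (μ := volume) (a := 0) (b := T)).mono_set Set.Ioc_subset_Icc_self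
  have s1 : ∫ t in Set.Ioc 0 T, ∑ i, (Set.Ici |x i|).indicator h t ≤ ∑ i, G (x i) := by
    rw [integral_finsetSum _ (fun i _ => hint i)]
    exact Finset.sum_le_sum fun i _ => Z_layer hh h0 hG heven hlim T hT (x i)
  have s2 : ∫ t in Set.Ioc 0 T, (α * Λ * (t * h t) - C0 * ((1 + t) ^ 2 * h t)) ≤
      ∫ t in Set.Ioc 0 T, ∑ i, (Set.Ici |x i|).indicator h t := by
    refine setIntegral_mono_on ?_ (integrable_finsetSum _ fun i _ => hint i) measurableSet_Ioc
      fun t ht => ?_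
    · have hc : Continuous fun t => α * Λ * (t * h t) - C0 * ((1 + t) ^ 2 * h t) := by fun_prop
      exact (hc.continuousOn.integrableOn_Icc (μ := volume) (a := 0) (b := T)).mono_set
        Set.Ioc_subset_Icc_self
    · have e1 : ∑ i, (Set.Ici |x i|).indicator h t =
          ((univ.filter (fun i => |x i| ≤ t)).card : ℝ) * h t := by
        simp only [Set.indicator_apply, Set.mem_Ici]
        rw [← Finset.sum_filter, Finset.sum_const, nsmul_eq_mul]
      rw [e1]
      have := mul_le_mul_of_nonneg_right (hN t ht.1.le ht.2) (h0 t ht.1.le)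
      refine le_trans (le_of_eq ?_) this
      ring
  have s3 : ∫ t in Set.Ioc 0 T, (α * Λ * (t * h t) - C0 * ((1 + t) ^ 2 * h t)) =
      α * Λ * ((∫ t in (0 : ℝ)..T, G t) - T * G T) - C0 * ∫ t in (0 : ℝ)..T, (1 + t) ^ 2 * h t := by
    rw [← intervalIntegral.integral_of_le hT, intervalIntegral.integral_sub
      ((by fun_prop : Continuous fun t : ℝ => α * Λ * (t * h t)).intervalIntegrable _ _)
      ((by fun_prop : Continuous fun t : ℝ => C0 * ((1 + t) ^ 2 * h t)).intervalIntegrable _ _),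
      intervalIntegral.integral_const_mul, intervalIntegral.integral_const_mul, Z_parts hh hG]
  have s4 := Z_int h0 hK hG heven hlim T hT
  have s5 := Z_sq hh hK hK0 T hT
  have s6 := Z_le h0 hK hG hlim T hT
  have s7 : T * G T ≤ T * (K * Real.exp (-T)) := mul_le_mul_of_nonneg_left s6 hT
  have s8 : (∫ y, G y) / 2 - K * ((1 + T) * Real.exp (-T)) ≤
      (∫ t in (0 : ℝ)..T, G t) - T * G T := by linarith
  have s9 := mul_le_mul_of_nonneg_left s8 (mul_nonneg hα hΛ)
  have s10 := mul_le_mul_of_nonneg_left s5 hC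
  have s11 := s2.trans s1
  rw [s3] at s11
  have s12 : α * Λ * ((∫ y, G y) / 2 - K * ((1 + T) * Real.exp (-T))) =
    α / 2 * (∫ y, G y) * Λ - α * Λ * K * ((1 + T) * Real.exp (-T)) := by ring
  linarith

theorem Z_exp (T : ℝ) (hT : 0 ≤ T) : T ^ 2 * ((1 + T) * Real.exp (-T)) ≤ 8 := by
  have h1 : T ^ 2 + T ^ 3 ≤ 8 * Real.exp T := by
    have h2 := Real.pow_div_factorial_le_exp T hT 2
    have h3 := Real.pow_div_factorial_le_exp T hT 3
    norm_num [Nat.factorial] at h2 h3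
    linarith
  rw [Real.exp_neg]
  have h4 : 0 < Real.exp T := Real.exp_pos T
  have : T ^ 2 * ((1 + T) * (Real.exp T)⁻¹) = (T ^ 2 + T ^ 3) / Real.exp T := by
    field_simp
  rw [this, div_le_iff₀ h4]
  exact h1

end Z

theorem sum_u (G h : ℝ → ℝ) (K : ℝ) (hh : Continuous h) (h0 : ∀ x, 0 ≤ x → 0 ≤ h x)
    (hK : ∀ x, 0 ≤ x → h x ≤ K * Real.exp (-x)) (hG : ∀ x, HasDerivAt G (-h x) x)
    (heven : ∀ x, G (-x) = G x) (hlim : Filter.Tendsto G Filter.atTop (nhds 0)) :
    ∃ C : ℝ, ∀ L : ℕ, 1 ≤ L → ∀ (hJ : (J L).IsHermitian) (μ : Fin L → ℝ), IsMu L hJ μ →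
      3 / (2 * Real.pi ^ 2) * (∫ x, G x) * Real.log L - C ≤ ∑ i, G (Real.log (μ i)) := by
  obtain ⟨C0, c, hC0, hc, L0, hd⟩ := dens_u
  have hK0 : 0 ≤ K := by
    have := (h0 0 le_rfl).trans (hK 0 le_rfl)
    simpa using this
  have hG0 : ∀ x, 0 ≤ G x := Z_nonneg h0 hG heven hlim
  have hI : 0 ≤ ∫ x, G x := integral_nonneg hG0
  set α : ℝ := 3 / Real.pi ^ 2 with hα
  have hα0 : 0 ≤ α := by positivity
  have hα2 : 3 / (2 * Real.pi ^ 2) = α / 2 := by rw [hα]; field_simp
  rw [hα2]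
  have hlog0 : 0 ≤ Real.log (L0 : ℝ) := Real.log_natCast_nonneg L0
  refine ⟨8 * α * K / c + 5 * C0 * K + α / 2 * (∫ x, G x) * Real.log L0, ?_⟩
  intro L hL hJ μ hμ
  have h1 : 0 ≤ 8 * α * K / c := by positivity
  have h2 : 0 ≤ 5 * C0 * K := by positivity
  have h3 : 0 ≤ α / 2 * (∫ x, G x) := by positivity
  rcases le_or_gt L0 L with hLL | hLL
  · set Λ := Real.log (L : ℝ) with hΛ
    have hΛ0 : 0 ≤ Λ := Real.log_natCast_nonneg L
    set T := √(c * Λ) with hT
    have hT0 : 0 ≤ T := Real.sqrt_nonneg _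
    have hT2 : T ^ 2 = c * Λ := Real.sq_sqrt (by positivity)
    have key := Z_core hh h0 hK hG heven hlim (fun i => Real.log (μ i)) T α Λ C0 hT0 hα0 hΛ0 hC0.le
      (fun t ht htT => hd L hLL hJ μ hμ t ht (by
        rw [← hT2]
        exact pow_le_pow_left₀ ht htT 2))
    have h4 : α * Λ * K * ((1 + T) * Real.exp (-T)) ≤ 8 * α * K / c := by
      have h5 := Z_exp T hT0
      rw [hT2] at h5
      have h6 : α * Λ * K * ((1 + T) * Real.exp (-T)) =
          α * K / c * (c * Λ * ((1 + T) * Real.exp (-T))) := by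
        field_simp
      rw [h6]
      have h7 := mul_le_mul_of_nonneg_left h5 (show 0 ≤ α * K / c by positivity)
      refine h7.trans (le_of_eq ?_)
      ring
    have h5 : 0 ≤ α / 2 * (∫ x, G x) * Real.log L0 := mul_nonneg h3 hlog0
    linarith
  · have h4 : 0 ≤ ∑ i, G (Real.log (μ i)) := Finset.sum_nonneg fun i _ => hG0 _
    have h5 : Real.log (L : ℝ) ≤ Real.log (L0 : ℝ) :=
      Real.log_le_log (by exact_mod_cast hL) (by exact_mod_cast hLL.le)
    have h6 := mul_le_mul_of_nonneg_left h5 h3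
    linarith

end Pool.Agent.H160R2.SA
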